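import Pool.Agent.Helper24.AG.ExcA
import Pool.Agent.Helper24.LT.DimA
import Pool.Agent.Helper2.AG.Th

/-!
Project AG (MP_b8862a_ag), block T3: type `A`, integral weights.
-/

set_option linter.unusedSectionVars false
set_option linter.unusedVariables false

open Module PF TF PW

namespace AG

/-- a decreasing sequence -/
theorem init24 {m : ℕ} (x : Fin m → ℝ) (hx : ∀ i j, i < j → x j ≤ x i) (c : ℝ) {K : ℕ}
    (hK : (Finset.univ.filter fun j => c ≤ x j).card = K) (j : Fin m) : c ≤ x j ↔ j.val < K := by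
  constructor
  · intro h
    have h1 : Finset.Iic j ⊆ Finset.univ.filter fun j => c ≤ x j := by
      intro i hi
      rw [Finset.mem_Iic] at hi
      rw [Finset.mem_filter]
      refine ⟨Finset.mem_univ _, ?_⟩
      rcases lt_or_eq_of_le hi with h2 | h2
      · exact h.trans (hx i j h2)
      · rw [h2]
        exact h
    have h2 := Finset.card_le_card h1
    rw [hK, Fin.card_Iic] at h2
    omega
  · intro h
    by_contra hc
    have h1 : (Finset.univ.filter fun j => c ≤ x j) ⊆ Finset.Iio j := by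
      intro i hi
      rw [Finset.mem_filter] at hi
      rw [Finset.mem_Iio]
      by_contra h2
      push Not at h2
      rcases lt_or_eq_of_le h2 with h3 | h3
      · exact hc (hi.2.trans (hx j i h3))
      · rw [← h3] at hi
        exact hc hi.2
    have h2 := Finset.card_le_card h1
    rw [hK, Fin.card_Iio] at h2
    omega

variable {E : Type*} [NormedAddCommGroup E] [InnerProductSpace ℝ E] {Φ X : Finset E} {n s m d : ℕ} {l y v : E} {c : ℝ}
  {u : Fin m → E}

/-- the dimension in the integral case -/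
theorem dimA_int24 (h : Wd Φ X n l v) (F : FrA Φ m u) {z : Fin m → ℤ} (hz : ∀ i, (inner ℝ l (u i) : ℝ) = z i)
    (h1 : ∀ i, |z i| ≤ 1) {k : ℕ} (hk1 : 1 ≤ k) (hkm : 2 * k ≤ m)
    (hp : (Finset.univ.filter fun i => z i = 1).card = k) (hn : (Finset.univ.filter fun i => z i = -1).card = k) :
    n + m.choose (k - 1) ^ 2 = m.choose k ^ 2 := by
  classical
  obtain ⟨σ, hs, hd, hpos⟩ := dim_frAR h F (k := fun i => (z i : ℝ)) hz
  have hc : ∀ i, z i = 0 ∨ z i = 1 ∨ z i = -1 := by
    intro i
    have := h1 i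
    rw [abs_le] at this
    omega
  have e1 : (Finset.univ.filter fun j => (1 : ℝ) ≤ (z (σ j) : ℝ)).card = k := by
    rw [← hp]
    refine Finset.card_bij (fun j _ => σ j) ?_ (fun a _ b _ h => σ.injective h) ?_
    · intro j hj
      rw [Finset.mem_filter] at hj ⊢
      refine ⟨Finset.mem_univ _, ?_⟩
      have h2 : (1 : ℤ) ≤ z (σ j) := by exact_mod_cast hj.2
      rcases hc (σ j) with h3 | h3 | h3 <;> omega
    · intro i hi
      rw [Finset.mem_filter] at hi
      refine ⟨σ.symm i, ?_, by simp⟩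
      rw [Finset.mem_filter]
      refine ⟨Finset.mem_univ _, ?_⟩
      rw [Equiv.apply_symm_apply, hi.2]
      norm_num
  have e2 : (Finset.univ.filter fun j => (0 : ℝ) ≤ (z (σ j) : ℝ)).card = m - k := by
    have h2 : (Finset.univ.filter fun j => ¬ (0 : ℝ) ≤ (z (σ j) : ℝ)).card = k := by
      rw [← hn]
      refine Finset.card_bij (fun j _ => σ j) ?_ (fun a _ b _ h => σ.injective h) ?_
      · intro j hj
        rw [Finset.mem_filter] at hj ⊢
        refine ⟨Finset.mem_univ _, ?_⟩
        have h2 : ¬ (0 : ℤ) ≤ z (σ j) := by exact_mod_cast hj.2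
        rcases hc (σ j) with h3 | h3 | h3 <;> omega
      · intro i hi
        rw [Finset.mem_filter] at hi
        refine ⟨σ.symm i, ?_, by simp⟩
        rw [Finset.mem_filter]
        refine ⟨Finset.mem_univ _, ?_⟩
        rw [Equiv.apply_symm_apply, hi.2]
        norm_num
    have h3 := Finset.card_filter_add_card_filter_not (s := (Finset.univ : Finset (Fin m)))
      (fun j => (0 : ℝ) ≤ (z (σ j) : ℝ))
    rw [h2, Finset.card_univ, Fintype.card_fin] at h3
    omega
  have hx : ∀ j : Fin m, z (σ j) = if (j : ℕ) < k then 1 else if m ≤ j + k then -1 else 0 := by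
    intro j
    have h2 := init24 _ hs 1 e1 j
    have h3 := init24 _ hs 0 e2 j
    by_cases h4 : (j : ℕ) < k
    · rw [if_pos h4]
      have h5 : (1 : ℤ) ≤ z (σ j) := by exact_mod_cast h2.2 h4
      rcases hc (σ j) with h6 | h6 | h6 <;> omega
    · rw [if_neg h4]
      have h5 : ¬ (1 : ℤ) ≤ z (σ j) := fun h => h4 (h2.1 (by exact_mod_cast h))
      by_cases h6 : m ≤ j + k
      · rw [if_pos h6]
        have h7 : ¬ (0 : ℤ) ≤ z (σ j) := fun h => by
          have h8 := h3.1 (by exact_mod_cast h)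
          omega
        rcases hc (σ j) with h6 | h6 | h6 <;> omega
      · rw [if_neg h6]
        have h7 : (0 : ℤ) ≤ z (σ j) := by exact_mod_cast h3.2 (by omega)
        rcases hc (σ j) with h6 | h6 | h6 <;> omega
  refine LT.dimA24 hk1 hkm (fun j => z (σ j)) hx ?_
  have h2 : (((n : ℤ) * Pa m 0 : ℤ) : ℝ) = ((Pa m (fun j => z (σ j)) : ℤ) : ℝ) := by
    rw [Int.cast_mul, LT.Pa_cast24, LT.Pa_cast24]
    have h2 : (fun i : Fin m => ((((0 : Fin m → ℤ) i : ℤ) : ℝ))) = 0 := by
      funext i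
      simp
    rw [h2]
    exact_mod_cast hd
  exact_mod_cast h2

/-- the data in the integral case -/
theorem shapeA1_24 (h : D3 Φ X n s l y v) (hs : ShA1 Φ m u l) : ∃ k, 2 ≤ k ∧ 2 * k ≤ m ∧
    n + m.choose (k - 1) ^ 2 = m.choose k ^ 2 ∧ n * k * (m + 1 - k) = s * m * (m + 1) ∧ m.choose 4 ≤ n := by
  classical
  obtain ⟨F, hm, hroot, z, hz⟩ := hs
  have h3 := h.lev
  have hX := h.inn.sat
  have hlsp := Sat.span27 hX h.inn.l_mem
  have hm0 : (0 : ℝ) < m := by exact_mod_cast (by omega : 0 < m)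
  have hz2 : ¬ ∑ i, |z i| ≤ 2 := fun hz2 => hroot (F.root_of_small hm hlsp h.inn.l_ne hz hz2)
  have hn4 : m.choose 4 ≤ n := by
    rcases F.comb hX (by omega) with h1 | h1
    · exact h1.trans h.inn.card_le
    · exfalso
      obtain ⟨z', hz', h2⟩ := h1 l h.inn.l_mem
      apply hz2
      have h4 : ∀ i, z' i = z i := by
        intro i
        have h5 := (hz' i).symm.trans (hz i)
        exact_mod_cast h5
      simpa only [h4] using h2
  have hy0 : y ≠ 0 := by
    intro h0
    have h1 := h.inn.idt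
    rw [h0, inner_zero_right, mul_zero, F.finrank (by omega), F.card] at h1
    have h2 : (0 : ℝ) < ((8 * s : ℕ) : ℝ) := by exact_mod_cast (by have := h.s_pos; omega : 0 < 8 * s)
    have h4 : (0 : ℝ) < ((m - 1 : ℕ) : ℝ) + m * (m - 1) := by
      have h5 : (9 : ℝ) ≤ m := by exact_mod_cast hm
      have h6 : (0 : ℝ) ≤ ((m - 1 : ℕ) : ℝ) := Nat.cast_nonneg _
      nlinarith
    have := mul_pos h2 h4
    linarith
  -- the shape of `y`
  obtain ⟨w, ⟨x', hx', hw⟩, hw1, hw2⟩ := core_a (by omega)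
    (fun z => ∃ x ∈ X, ∀ i, (inner ℝ x (u i) : ℝ) = z i) (by
      rintro z ⟨x, hx, hz⟩
      have h1 := F.sum_ax (by omega) x
      simp only [hz] at h1
      exact_mod_cast h1) (by
      rintro z ⟨x, hx, hz⟩ i j hij h1
      have h2 := F.step hX hx hij (by
        rw [hz i, hz j]
        exact_mod_cast h1)
      refine ⟨_, h2, fun k => ?_⟩
      rw [F.ax_step, hz k]
      unfold md
      by_cases hki : k = i
      · subst hki; simp [hij.symm]
      · by_cases hkj : k = j
        · subst hkj; simp [hki, hij]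
        · simp [hki, hkj, Ne.symm hki, Ne.symm hkj]) z ⟨l, h.inn.l_mem, hz⟩ (by omega)
  obtain ⟨p, ε, hε, hy⟩ := F.y_shape hX hm h3 h.inn.y_mem hy0 hx' hw hw1 hw2
  -- the level of an element of `X`
  have hlev : ∀ x ∈ X, (inner ℝ x y : ℝ) = ε * inner ℝ x (u p) := by
    intro x hx
    rw [F.inner_eq (Sat.span27 hX hx) y]
    have h1 := F.sum_ax (by omega) x
    have h2 : ∀ i, (inner ℝ x (u i) : ℝ) * inner ℝ y (u i) =
        ε * (if i = p then inner ℝ x (u i) else 0) - ε * (1 / (m : ℝ)) * inner ℝ x (u i) := by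
      intro i
      rw [hy i]
      split_ifs <;> ring
    rw [Finset.sum_congr rfl fun i _ => h2 i, Finset.sum_sub_distrib, ← Finset.mul_sum, ← Finset.mul_sum, h1,
      Finset.sum_ite_eq' Finset.univ p, if_pos (Finset.mem_univ p)]
    ring
  have hz1 : ∀ i, |z i| ≤ 1 := by
    intro i
    obtain ⟨x, hx, hxk⟩ := F.swap hX h.inn.l_mem i p
    have h1 := hlev x hx
    rw [hxk p, Equiv.swap_apply_right, hz i] at h1
    have h2 := h3 x hx
    rw [h1] at h2
    have h4 : (z i : ℝ) = -1 ∨ (z i : ℝ) = 0 ∨ (z i : ℝ) = 1 := by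
      rcases hε with h | h <;> rw [h] at h2 <;> rcases h2 with h2 | h2 | h2
      · left; linarith
      · right; left; linarith
      · right; right; linarith
      · right; right; linarith
      · right; left; linarith
      · left; linarith
    rcases h4 with h4 | h4 | h4
    · have : z i = -1 := by exact_mod_cast h4
      rw [this]; norm_num
    · have : z i = 0 := by exact_mod_cast h4
      rw [this]; norm_num
    · have : z i = 1 := by exact_mod_cast h4
      rw [this]; norm_num
  -- the number of the coordinates which are one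
  have hz0 : ∑ i, z i = 0 := by
    have h1 := F.sum_ax (by omega) l
    simp only [hz] at h1
    exact_mod_cast h1
  have hc : ∀ i, z i = 0 ∨ z i = 1 ∨ z i = -1 := by
    intro i
    have := hz1 i
    rw [abs_le] at this
    omega
  obtain ⟨k, hk⟩ : ∃ k, (Finset.univ.filter fun i => z i = 1).card = k := ⟨_, rfl⟩
  obtain ⟨k', hk'⟩ : ∃ k', (Finset.univ.filter fun i => z i = -1).card = k' := ⟨_, rfl⟩
  have hkz : (k : ℤ) = ∑ i, if z i = 1 then 1 else 0 := by
    rw [← hk, Finset.card_filter]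
    push_cast
    rfl
  have hkz' : (k' : ℤ) = ∑ i, if z i = -1 then 1 else 0 := by
    rw [← hk', Finset.card_filter]
    push_cast
    rfl
  have hkk : k = k' := by
    have h1 : (k : ℤ) - k' = ∑ i, z i := by
      rw [hkz, hkz', ← Finset.sum_sub_distrib]
      refine Finset.sum_congr rfl fun i _ => ?_
      rcases hc i with h | h | h <;> rw [h] <;> norm_num
    rw [hz0] at h1
    omega
  have hS : ∑ i, |z i| = 2 * k := by
    have h1 : ((k : ℤ) + k') = ∑ i, |z i| := by
      rw [hkz, hkz', ← Finset.sum_add_distrib]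
      refine Finset.sum_congr rfl fun i _ => ?_
      rcases hc i with h | h | h <;> rw [h] <;> norm_num
    rw [← h1, ← hkk]
    ring
  have hkm : 2 * k ≤ m := by
    have h1 : ∑ i, |z i| ≤ ∑ _i : Fin m, (1 : ℤ) := Finset.sum_le_sum fun i _ => hz1 i
    rw [hS] at h1
    simp only [Finset.sum_const, Finset.card_univ, Fintype.card_fin, nsmul_eq_mul, mul_one] at h1
    exact_mod_cast h1
  have hk2 : 2 ≤ k := by
    rw [hS] at hz2
    omega
  -- the identity
  have hyy : (inner ℝ y y : ℝ) = 1 - 1 / (m : ℝ) := by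
    rw [F.inner_eq h.inn.y_mem y]
    have hε2 : ε * ε = 1 := by rcases hε with h | h <;> rw [h] <;> norm_num
    have h2 : ∀ i, (inner ℝ y (u i) : ℝ) * inner ℝ y (u i) =
        (if i = p then (1 - 2 / (m : ℝ)) else 0) + 1 / (m : ℝ) ^ 2 := by
      intro i
      rw [hy i]
      split_ifs
      · field_simp
        linear_combination ((m : ℝ) - 1) ^ 2 * hε2
      · field_simp
        linear_combination hε2
    rw [Finset.sum_congr rfl fun i _ => h2 i, Finset.sum_add_distrib, Finset.sum_ite_eq' Finset.univ p,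
      if_pos (Finset.mem_univ p), Finset.sum_const, Finset.card_univ, Fintype.card_fin, nsmul_eq_mul]
    field_simp
    ring
  have hcas := casA_int24 F (by omega) hlsp hz hz1 (k := k) (by rw [hS])
  have hid := h.inn.idt
  have hm1 : ((m - 1 : ℕ) : ℝ) = m - 1 := by
    rw [Nat.cast_sub (by omega)]; norm_num
  rw [F.finrank (by omega), F.card, hyy, hm1, hcas] at hid
  push_cast at hid
  have hm9 : (9 : ℝ) ≤ m := by exact_mod_cast hm
  have hid2 : (n : ℝ) * k * (m + 1 - k) = s * m * (m + 1) := by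
    have h5 : (m : ℝ) - 1 ≠ 0 := by linarith
    have h7 : (1 : ℝ) - 1 / m = (m - 1) / m := by field_simp
    rw [h7] at hid
    have h8 : ((m : ℝ) - 1) * (n * k * (m + 1 - k)) = (m - 1) * (s * m * (m + 1)) := by
      have h9 : (m : ℝ) * (4 * n * (2 * k * (m + 1 - k)) * ((m - 1) / m)) = (m - 1) * (8 * (n * k * (m + 1 - k))) := by
        field_simp
        ring
      have h10 : (m : ℝ) * (4 * n * (2 * k * (m + 1 - k)) * ((m - 1) / m)) = (m - 1) * (8 * (s * m * (m + 1))) := by
        rw [hid]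
        ring
      have h11 := h9.symm.trans h10
      linarith
    exact mul_left_cancel₀ h5 h8
  refine ⟨k, hk2, hkm, dimA_int24 h.wd F hz hz1 (by omega) hkm hk (by rw [hk', ← hkk]), ?_, hn4⟩
  have h5 : ((m + 1 - k : ℕ) : ℝ) = (m : ℝ) + 1 - k := by
    rw [Nat.cast_sub (by omega)]
    push_cast
    ring
  have h6 : ((n * k * (m + 1 - k) : ℕ) : ℝ) = ((s * m * (m + 1) : ℕ) : ℝ) := by
    rw [Nat.cast_mul, h5]
    push_cast
    exact hid2
  exact_mod_cast h6

/-- BLOCK T3 (helper24) -/
theorem th_A1 : Th SA1 := by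
  refine Th.three 100 (fun m k => (m.choose k ^ 2 - m.choose (k - 1) ^ 2) * k * (m + 1 - k) / (m * (m + 1))) ?_
  rintro s ⟨ι, _, Φ, X, n, l, y, v, m, u, h, hs⟩
  have hm := hs.2.1
  obtain ⟨k, hk2, hkm, hn, hid, hn4⟩ := shapeA1_24 h hs
  refine ⟨m, k, ?_, by omega, ?_⟩
  · -- the size
    have h4 := choose_four m
    obtain ⟨t, rfl⟩ : ∃ t, m = t + 9 := ⟨m - 9, by omega⟩
    rw [show t + 9 - 1 = t + 8 by omega, show t + 9 - 2 = t + 7 by omega, show t + 9 - 3 = t + 6 by omega] at h4
    -- `k (m + 1 - k) ≥ 2 (m - 1)`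
    obtain ⟨a, rfl⟩ : ∃ a, k = a + 2 := ⟨k - 2, by omega⟩
    obtain ⟨b, hb⟩ : ∃ b, t + 9 = 2 * (a + 2) + b := ⟨t + 9 - 2 * (a + 2), by omega⟩
    have h5 : 2 * (t + 8) ≤ (a + 2) * (t + 9 + 1 - (a + 2)) := by
      have h6 : t + 9 + 1 - (a + 2) = a + b + 3 := by omega
      rw [h6]
      have h7 : t = 2 * a + b - 5 := by omega
      have h8 : 5 ≤ 2 * a + b := by omega
      have h9 : 2 * (t + 8) = 2 * (2 * a + b + 3) := by omega
      rw [h9]
      nlinarith
    have h6 : (t + 9).choose 4 * (2 * (t + 8)) ≤ s * (t + 9) * (t + 9 + 1) := by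
      rw [← hid, mul_assoc]
      exact Nat.mul_le_mul hn4 h5
    have h7 : (t + 9) * ((t + 8) * (t + 7) * (t + 6) * (2 * (t + 8))) ≤ (t + 9) * (24 * (s * (t + 10))) := by
      calc (t + 9) * ((t + 8) * (t + 7) * (t + 6) * (2 * (t + 8))) =
          ((t + 9) * (t + 8) * (t + 7) * (t + 6)) * (2 * (t + 8)) := by ring
        _ = 24 * ((t + 9).choose 4 * (2 * (t + 8))) := by rw [← h4]; ring
        _ ≤ 24 * (s * (t + 9) * (t + 9 + 1)) := Nat.mul_le_mul_left _ h6
        _ = (t + 9) * (24 * (s * (t + 10))) := by ring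
    have h8 := Nat.le_of_mul_le_mul_left h7 (by omega)
    have h9 : (t + 10) * (t + 9) ^ 3 ≤ (t + 10) * (100 * s) := by
      have h10 : 24 * ((t + 10) * (t + 9) ^ 3) ≤ 100 * ((t + 8) * (t + 7) * (t + 6) * (2 * (t + 8))) := by
        nlinarith [Nat.zero_le t, Nat.zero_le (t ^ 2), Nat.zero_le (t ^ 3), Nat.zero_le (t ^ 4)]
      have h11 : 24 * ((t + 10) * (t + 9) ^ 3) ≤ 24 * ((t + 10) * (100 * s)) := by
        calc 24 * ((t + 10) * (t + 9) ^ 3) ≤ 100 * ((t + 8) * (t + 7) * (t + 6) * (2 * (t + 8))) := h10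
          _ ≤ 100 * (24 * (s * (t + 10))) := Nat.mul_le_mul_left _ h8
          _ = 24 * ((t + 10) * (100 * s)) := by ring
      exact Nat.le_of_mul_le_mul_left h11 (by norm_num)
    exact Nat.le_of_mul_le_mul_left h9 (by omega)
  · have h5 : m.choose k ^ 2 - m.choose (k - 1) ^ 2 = n := by omega
    show (m.choose k ^ 2 - m.choose (k - 1) ^ 2) * k * (m + 1 - k) / (m * (m + 1)) = s
    rw [h5, hid, mul_assoc]
    exact Nat.mul_div_cancel _ (by positivity)

end AG
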