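import Pool.Agent.Helper24.AG.A1

/-!
Project AG (MP_b8862a_ag), block T4: type `A`, half odd weights.
-/

set_option linter.unusedSectionVars false
set_option linter.unusedVariables false

open Module PF TF PW

namespace AG

variable {E : Type*} [NormedAddCommGroup E] [InnerProductSpace ℝ E] {Φ X : Finset E} {n s m d : ℕ} {l y v : E} {c : ℝ}
  {u : Fin m → E}

/-- exchange two coordinates -/
theorem swap_lvl24 (F : FrA Φ m u) (hX : Sat Φ X) {x : E} (hx : x ∈ X) {i j : Fin m} (hij : i ≠ j) (y : E) :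
    ∃ x' ∈ X, (∀ k, (inner ℝ x' (u k) : ℝ) = inner ℝ x (u (Equiv.swap i j k))) ∧
      (inner ℝ x' y : ℝ) = inner ℝ x y -
        (inner ℝ x (u i) - inner ℝ x (u j)) * (inner ℝ y (u i) - inner ℝ y (u j)) := by
  have h1 := Sat.refl27 hX (F.mem' hij) (by rw [neg_sub]; exact F.mem' (Ne.symm hij)) hx
  refine ⟨_, h1, fun k => ?_, ?_⟩
  · rw [F.co hij, _root_.inner_sub_left, inner_smul_left, conj_trivial, F.inner_sub]
    by_cases hki : k = i
    · subst hki
      rw [Equiv.swap_apply_left, if_pos rfl, if_neg (Ne.symm hij)]; ring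
    · by_cases hkj : k = j
      · subst hkj
        rw [Equiv.swap_apply_right, if_neg (Ne.symm hki), if_pos rfl]; ring
      · rw [Equiv.swap_apply_of_ne_of_ne hki hkj, if_neg (Ne.symm hki), if_neg (Ne.symm hkj)]; ring
  · rw [F.co hij, _root_.inner_sub_left, inner_smul_left, conj_trivial, real_inner_comm y (u i - u j), F.inner_sub']

/-- the coordinates of the weights differ by little -/
theorem spread24 (F : FrA Φ m u) (hX : Sat Φ X) (h3 : Lev3 X y) {x : E} (hx : x ∈ X) {p q i j : Fin m} (hpq : p ≠ q)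
    (hij : i ≠ j) : (inner ℝ x (u i) - inner ℝ x (u j)) * (inner ℝ y (u p) - inner ℝ y (u q)) ≤ (2 : ℝ) := by
  obtain ⟨σ, hσ⟩ := exists_perm ![p, q] ![i, j]
    (by
      intro s t hst
      fin_cases s <;> fin_cases t <;> simp_all)
    (by
      intro s t hst
      fin_cases s <;> fin_cases t <;> simp_all)
  have s0 : σ p = i := hσ 0
  have s1 : σ q = j := hσ 1
  obtain ⟨x', hx', h1⟩ := F.perm hX σ x hx
  obtain ⟨x'', hx'', -, h2⟩ := swap_lvl24 F hX hx' hpq y
  rw [h1 p, h1 q, s0, s1] at h2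
  have h4 : (inner ℝ x' y : ℝ) ≤ 1 := by
    rcases h3 x' hx' with h | h | h <;> rw [h] <;> norm_num
  have h5 : (-1 : ℝ) ≤ inner ℝ x'' y := by
    rcases h3 x'' hx'' with h | h | h <;> rw [h] <;> norm_num
  linarith

/-- half odd coordinates are at most `1/2` -/
theorem half_le24 (F : FrA Φ m u) (hX : Sat Φ X) (hm : 9 ≤ m) (h3 : Lev3 X y)
    (hlev : ∀ a ∈ Φ, ∃ k : ℤ, (inner ℝ a y : ℝ) = k) (hy : y ∈ Submodule.span ℝ (Φ : Set E)) (hy0 : y ≠ 0)
    {x : E} (hx : x ∈ X) {z : Fin m → ℤ} (hz : ∀ i, (inner ℝ x (u i) : ℝ) = z i + 1 / 2) (a : Fin m) : z a ≤ 0 := by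
  classical
  by_contra hcon
  push Not at hcon
  have hm0 : (0 : ℝ) < m := by exact_mod_cast (by omega : 0 < m)
  have hne : (Finset.univ : Finset (Fin m)).Nonempty := ⟨a, Finset.mem_univ a⟩
  obtain ⟨p, -, hp⟩ := Finset.exists_max_image (Finset.univ : Finset (Fin m)) (fun i => (inner ℝ y (u i) : ℝ)) hne
  obtain ⟨q, -, hq⟩ := Finset.exists_min_image (Finset.univ : Finset (Fin m)) (fun i => (inner ℝ y (u i) : ℝ)) hne
  have hint : ∀ i j : Fin m, ∃ k : ℤ, (inner ℝ y (u i) - inner ℝ y (u j) : ℝ) = k := by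
    intro i j
    by_cases hij : i = j
    · exact ⟨0, by rw [hij]; simp⟩
    · obtain ⟨k, hk⟩ := hlev _ (F.mem' hij)
      refine ⟨k, ?_⟩
      rw [← hk, real_inner_comm y (u i - u j), F.inner_sub']
  have hysum := F.sum_ax (by omega) y
  have hxsum := F.sum_ax (by omega) x
  obtain ⟨D, hD⟩ := hint p q
  have hD0 : 0 < D := by
    have h1 := hq p (Finset.mem_univ p)
    have h2 : (0 : ℝ) ≤ D := by
      rw [← hD]
      linarith
    have h4 : (0 : ℤ) ≤ D := by exact_mod_cast h2
    rcases lt_or_eq_of_le h4 with h5 | h5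
    · exact h5
    · exfalso
      apply hy0
      have h6 : ∀ i, (inner ℝ y (u i) : ℝ) = inner ℝ y (u q) := by
        intro i
        have h7 := hp i (Finset.mem_univ i)
        have h8 := hq i (Finset.mem_univ i)
        have h9 : (inner ℝ y (u p) : ℝ) - inner ℝ y (u q) = 0 := by
          rw [hD, ← h5]
          norm_num
        linarith
      have h7 : ∀ i, (inner ℝ y (u i) : ℝ) = 0 := by
        intro i
        rw [Finset.sum_congr rfl (fun j _ => h6 j), Finset.sum_const, Finset.card_univ, Fintype.card_fin,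
          nsmul_eq_mul] at hysum
        rw [h6 i]
        rcases mul_eq_zero.1 hysum with h7 | h7
        · exact absurd h7 hm0.ne'
        · exact h7
      rw [F.expand hy]
      exact Finset.sum_eq_zero fun i _ => by rw [h7 i, zero_smul]
  have hpq : p ≠ q := by
    rintro rfl
    rw [sub_self] at hD
    have : (D : ℝ) = 0 := hD.symm
    have h1 : D = 0 := by exact_mod_cast this
    omega
  have hD1 : (1 : ℝ) ≤ D := by exact_mod_cast hD0
  have ha : (3 / 2 : ℝ) ≤ inner ℝ x (u a) := by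
    rw [hz a]
    have : (1 : ℝ) ≤ z a := by exact_mod_cast hcon
    linarith
  -- a negative coordinate
  obtain ⟨b, hb⟩ : ∃ b, (inner ℝ x (u b) : ℝ) ≤ -(1 / 2) := by
    by_contra hcon2
    push Not at hcon2
    have h1 : ∀ i, 0 ≤ (inner ℝ x (u i) : ℝ) := by
      intro i
      have h2 := hcon2 i
      rw [hz i] at h2 ⊢
      have h4 : (-1 : ℝ) < z i := by linarith
      have h5 : (-1 : ℤ) < z i := by exact_mod_cast h4
      have h6 : (0 : ℝ) ≤ z i := by exact_mod_cast (by omega : (0 : ℤ) ≤ z i)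
      linarith
    have h2 := Finset.single_le_sum (f := fun i => (inner ℝ x (u i) : ℝ)) (fun i _ => h1 i) (Finset.mem_univ a)
    rw [hxsum] at h2
    linarith
  have hab : a ≠ b := by
    rintro rfl
    linarith
  have hsp := spread24 F hX h3 hx hpq hab
  rw [hD] at hsp
  have hDe : (D : ℝ) = 1 := by
    have h1 : (D : ℝ) ≤ 1 := by nlinarith
    linarith
  have hae : (inner ℝ x (u a) : ℝ) = 3 / 2 := by
    rw [hDe] at hsp
    linarith
  have hbe : (inner ℝ x (u b) : ℝ) = -(1 / 2) := by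
    rw [hDe] at hsp
    linarith
  rw [hDe] at hD
  -- the two values of `y`
  have hval : ∀ k, (inner ℝ y (u k) : ℝ) = inner ℝ y (u p) ∨ (inner ℝ y (u k) : ℝ) = inner ℝ y (u q) := by
    intro k
    obtain ⟨e, he⟩ := hint k q
    have h7 := hp k (Finset.mem_univ k)
    have h8 := hq k (Finset.mem_univ k)
    have h9 : (0 : ℝ) ≤ e := by rw [← he]; linarith
    have h10 : (e : ℝ) ≤ 1 := by rw [← he]; linarith
    have h11 : (0 : ℤ) ≤ e := by exact_mod_cast h9
    have h12 : e ≤ 1 := by exact_mod_cast h10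
    rcases (by omega : e = 0 ∨ e = 1) with h13 | h13
    · right
      rw [h13] at he
      push_cast at he
      linarith
    · left
      rw [h13] at he
      push_cast at he
      linarith
  have hlevel : ∀ x' ∈ X, (inner ℝ x' y : ℝ) = ∑ k, inner ℝ x' (u k) * (inner ℝ y (u k) - inner ℝ y (u q)) := by
    intro x' hx'
    rw [F.inner_eq (Sat.span27 hX hx') y]
    have h1 := F.sum_ax (by omega) x'
    simp only [mul_sub, Finset.sum_sub_distrib, ← Finset.sum_mul, h1, zero_mul, sub_zero]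
  have hnotint : ∀ k : Fin m, ¬ ((inner ℝ x (u k) : ℝ) = -1 ∨ (inner ℝ x (u k) : ℝ) = 0 ∨
      (inner ℝ x (u k) : ℝ) = 1) := by
    intro k
    rw [hz k]
    rintro (h | h | h)
    · have : ((2 * z k : ℤ) : ℝ) = ((-3 : ℤ) : ℝ) := by push_cast; linarith
      have : 2 * z k = -3 := by exact_mod_cast this
      omega
    · have : ((2 * z k : ℤ) : ℝ) = ((-1 : ℤ) : ℝ) := by push_cast; linarith
      have : 2 * z k = -1 := by exact_mod_cast this
      omega
    · have : ((2 * z k : ℤ) : ℝ) = ((1 : ℤ) : ℝ) := by push_cast; linarith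
      have : 2 * z k = 1 := by exact_mod_cast this
      omega
  -- a second index with the large value
  obtain ⟨p', hp1, hp2⟩ : ∃ p', p' ≠ p ∧ (inner ℝ y (u p') : ℝ) = inner ℝ y (u p) := by
    by_contra hcon2
    push Not at hcon2
    have h1 := hlevel x hx
    rw [Finset.sum_eq_single p] at h1
    · rw [hD, mul_one] at h1
      have h2 := h3 x hx
      rw [h1] at h2
      exact hnotint p h2
    · intro k _ hk
      rcases hval k with h4 | h4
      · exact absurd h4 (hcon2 k hk)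
      · rw [h4, sub_self, mul_zero]
    · intro h; exact absurd (Finset.mem_univ _) h
  obtain ⟨q', hq1, hq2⟩ : ∃ q', q' ≠ q ∧ (inner ℝ y (u q') : ℝ) = inner ℝ y (u q) := by
    by_contra hcon2
    push Not at hcon2
    have h1 := hlevel x hx
    have h2 : ∀ k, (inner ℝ x (u k) : ℝ) * (inner ℝ y (u k) - inner ℝ y (u q)) =
        inner ℝ x (u k) - if k = q then inner ℝ x (u k) else 0 := by
      intro k
      by_cases hk : k = q
      · rw [if_pos hk, hk, sub_self, mul_zero, sub_self]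
      · rcases hval k with h4 | h4
        · rw [h4, hD, if_neg hk]; ring
        · exact absurd h4 (hcon2 k hk)
    rw [Finset.sum_congr rfl fun k _ => h2 k, Finset.sum_sub_distrib, hxsum, Finset.sum_ite_eq' Finset.univ q,
      if_pos (Finset.mem_univ q)] at h1
    have h4 := h3 x hx
    rw [h1] at h4
    apply hnotint q
    rcases h4 with h4 | h4 | h4
    · right; right; linarith
    · right; left; linarith
    · left; linarith
  have hne1 : p' ≠ q := by
    rintro rfl
    rw [hp2] at hD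
    linarith
  have hne2 : q' ≠ p := by
    rintro rfl
    rw [hq2] at hD
    linarith
  have hne3 : p' ≠ q' := by
    rintro rfl
    rw [hp2] at hq2
    rw [hq2] at hD
    linarith
  -- the other coordinates are equal
  have heq : ∀ c d : Fin m, c ≠ a → c ≠ b → d ≠ a → d ≠ b → c ≠ d → (inner ℝ x (u c) : ℝ) = inner ℝ x (u d) := by
    intro c d hca hcb hda hdb hcd
    obtain ⟨σ, hσ⟩ := exists_perm ![p, q, p', q'] ![a, b, c, d]
      (by
        intro s t hst
        fin_cases s <;> fin_cases t <;> simp_all)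
      (by
        intro s t hst
        fin_cases s <;> fin_cases t <;> simp_all)
    have s0 : σ p = a := hσ 0
    have s1 : σ q = b := hσ 1
    have s2 : σ p' = c := hσ 2
    have s3 : σ q' = d := hσ 3
    obtain ⟨x', hx', h1⟩ := F.perm hX σ x hx
    have hone : ∀ x' ∈ X, (inner ℝ x' (u p) : ℝ) = 3 / 2 → (inner ℝ x' (u q) : ℝ) = -(1 / 2) →
        (inner ℝ x' y : ℝ) = 1 := by
      intro x' hx' e1 e2
      obtain ⟨x'', hx'', -, h2⟩ := swap_lvl24 F hX hx' hpq y
      rw [e1, e2, hD] at h2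
      have h5 : (-1 : ℝ) ≤ inner ℝ x'' y := by
        rcases h3 x'' hx'' with h | h | h <;> rw [h] <;> norm_num
      have h4 : (inner ℝ x' y : ℝ) ≤ 1 := by
        rcases h3 x' hx' with h | h | h <;> rw [h] <;> norm_num
      linarith
    have h4 := hone x' hx' (by rw [h1, s0, hae]) (by rw [h1, s1, hbe])
    obtain ⟨x'', hx'', h5, h6⟩ := swap_lvl24 F hX hx' hne3 y
    have h7 := hone x'' hx''
      (by rw [h5, Equiv.swap_apply_of_ne_of_ne (Ne.symm hp1) (Ne.symm hne2), h1, s0, hae])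
      (by rw [h5, Equiv.swap_apply_of_ne_of_ne (Ne.symm hne1) (Ne.symm hq1), h1, s1, hbe])
    rw [h7, h4, h1, h1, s2, s3, hp2, hq2, hD] at h6
    linarith
  -- the contradiction
  obtain ⟨c, hc⟩ : ∃ c : Fin m, c ∉ ({a, b} : Finset (Fin m)) := by
    by_contra hcon2
    push Not at hcon2
    have h1 := Finset.card_le_card (fun i _ => hcon2 i : (Finset.univ : Finset (Fin m)) ⊆ {a, b})
    rw [Finset.card_univ, Fintype.card_fin] at h1
    have h2 := Finset.card_le_two (a := a) (b := b)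
    omega
  have hca : c ≠ a := fun h => hc (by simp [h])
  have hcb : c ≠ b := fun h => hc (by simp [h])
  have hform : ∀ i, (inner ℝ x (u i) : ℝ) = inner ℝ x (u c) + (if i = a then 3 / 2 - inner ℝ x (u c) else 0) +
      (if i = b then -(1 / 2) - inner ℝ x (u c) else 0) := by
    intro i
    by_cases hia : i = a
    · rw [if_pos hia, if_neg (by rw [hia]; exact hab), hia, hae]
      ring
    · by_cases hib : i = b
      · rw [if_neg hia, if_pos hib, hib, hbe]
        ring
      · rw [if_neg hia, if_neg hib]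
        by_cases hic : i = c
        · rw [hic]; ring
        · rw [heq i c hia hib hca hcb hic]
          ring
  rw [Finset.sum_congr rfl fun i _ => hform i, Finset.sum_add_distrib, Finset.sum_add_distrib,
    Finset.sum_ite_eq' Finset.univ a, Finset.sum_ite_eq' Finset.univ b, if_pos (Finset.mem_univ _),
    if_pos (Finset.mem_univ _), Finset.sum_const, Finset.card_univ, Fintype.card_fin, nsmul_eq_mul] at hxsum
  have hm9 : (9 : ℝ) ≤ m := by exact_mod_cast hm
  have h1 : ((m : ℝ) - 2) * inner ℝ x (u c) = -1 := by linarith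
  rw [hz c] at h1
  rcases le_or_gt 0 (z c) with h2 | h2
  · have h4 : (0 : ℝ) ≤ z c := by exact_mod_cast h2
    nlinarith
  · have h4 : (z c : ℝ) ≤ -1 := by exact_mod_cast (by omega : z c ≤ -1)
    nlinarith

/-- the dimension in the half odd case -/
theorem dimA_half24 (h : Wd Φ X n l v) (F : FrA Φ m u) (hm : 9 ≤ m)
    (h1 : ∀ i, (inner ℝ l (u i) : ℝ) = 1 / 2 ∨ (inner ℝ l (u i) : ℝ) = -(1 / 2)) :
    n = m.choose (m / 2) := by
  classical
  obtain ⟨σ, hs, hd, hpos⟩ := dim_frAR h F (k := fun i => (inner ℝ l (u i) : ℝ)) (fun _ => rfl)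
  obtain ⟨K, hK⟩ : ∃ K, (Finset.univ.filter fun j => (1 / 2 : ℝ) ≤ (inner ℝ l (u (σ j)) : ℝ)).card = K := ⟨_, rfl⟩
  have hxsum := F.sum_ax (by omega) l
  have h2 : ∑ j, ((if (1 / 2 : ℝ) ≤ (inner ℝ l (u (σ j)) : ℝ) then (1 : ℝ) else 0) - 1 / 2) = 0 := by
    refine Eq.trans (Finset.sum_congr rfl fun j _ => ?_)
      ((Equiv.sum_comp σ fun i => (inner ℝ l (u i) : ℝ)).trans hxsum)
    rcases h1 (σ j) with h3 | h3
    · rw [if_pos (by rw [h3]), h3]; norm_num
    · rw [if_neg (by rw [h3]; norm_num), h3]; norm_num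
  have hm2 : m = 2 * K := by
    rw [Finset.sum_sub_distrib, Finset.sum_const, Finset.card_univ, Fintype.card_fin, nsmul_eq_mul] at h2
    have h3 : (∑ j, if (1 / 2 : ℝ) ≤ (inner ℝ l (u (σ j)) : ℝ) then (1 : ℝ) else 0) = K := by
      rw [← hK, Finset.card_filter]
      push_cast
      rfl
    rw [h3] at h2
    have h4 : (m : ℝ) = ((2 * K : ℕ) : ℝ) := by
      push_cast
      linarith
    exact_mod_cast h4
  subst hm2
  have h5 := LT.dimM24 (k := K) (n := n) (by omega) (fun j => (inner ℝ l (u (σ j)) : ℝ)) (fun j => by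
    have h6 := init24 _ hs (1 / 2) hK j
    by_cases h7 : (j : ℕ) < K
    · rw [if_pos h7]
      have h8 := h6.2 h7
      rcases h1 (σ j) with h3 | h3
      · exact h3
      · rw [h3] at h8
        norm_num at h8
    · rw [if_neg h7]
      rcases h1 (σ j) with h3 | h3
      · exact absurd (h6.1 (by rw [h3])) h7
      · exact h3) hd
  rw [h5, show 2 * K / 2 = K by omega]

/-- the data in the half odd case -/
theorem shapeA2_24 (h : D3 Φ X n s l y v) (hs : ShA2 Φ m u l) : ∃ W : ℕ, W ≤ 4 * m ^ 2 ∧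
    m.choose (m / 2) * W = 16 * (m - 1) * s := by
  classical
  obtain ⟨F, hm, z, hz⟩ := hs
  have h3 := h.lev
  have hX := h.inn.sat
  have hlX := h.inn.l_mem
  have hlsp := Sat.span27 hX hlX
  have hm0 : (0 : ℝ) < m := by exact_mod_cast (by omega : 0 < m)
  have hm9 : (9 : ℝ) ≤ m := by exact_mod_cast hm
  have hm1 : ((m - 1 : ℕ) : ℝ) = m - 1 := by
    rw [Nat.cast_sub (by omega)]; norm_num
  have hy0 : y ≠ 0 := by
    intro h0
    have h1 := h.inn.idt
    rw [h0, inner_zero_right, mul_zero, F.finrank (by omega), F.card] at h1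
    have h2 : (0 : ℝ) < ((8 * s : ℕ) : ℝ) := by exact_mod_cast (by have := h.s_pos; omega : 0 < 8 * s)
    have h4 : (0 : ℝ) < ((m - 1 : ℕ) : ℝ) + m * (m - 1) := by
      rw [hm1]
      nlinarith
    have := mul_pos h2 h4
    linarith
  have hle := half_le24 F hX hm h3 h.inn.lev h.inn.y_mem hy0 hlX hz
  have hge : ∀ i, -1 ≤ z i := by
    intro i
    have h1 := half_le24 F hX hm h3 h.inn.lev h.inn.y_mem hy0 (hX.neg l hlX) (z := fun i => -z i - 1) (fun i => by
      rw [inner_neg_left, hz i]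
      push_cast
      ring) i
    omega
  have hhalf : ∀ i, (inner ℝ l (u i) : ℝ) = 1 / 2 ∨ (inner ℝ l (u i) : ℝ) = -(1 / 2) := by
    intro i
    rcases (by have := hle i; have := hge i; omega : z i = 0 ∨ z i = -1) with h1 | h1
    · left; rw [hz i, h1]; norm_num
    · right; rw [hz i, h1]; norm_num
  have hn := dimA_half24 h.wd F hm hhalf
  have hcas := casA_half24 F (by omega) hlsp hhalf
  -- the differences of the coordinates of `y`
  have hint : ∀ i j : Fin m, ∃ k : ℤ, (inner ℝ y (u i) - inner ℝ y (u j) : ℝ) = k := by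
    intro i j
    by_cases hij : i = j
    · exact ⟨0, by rw [hij]; simp⟩
    · obtain ⟨k, hk⟩ := h.inn.lev _ (F.mem' hij)
      refine ⟨k, ?_⟩
      rw [← hk, real_inner_comm y (u i - u j), F.inner_sub']
  choose Z hZ using hint
  have hxsum := F.sum_ax (by omega) l
  have hpos : ∃ i, (inner ℝ l (u i) : ℝ) = 1 / 2 := by
    by_contra hcon
    push Not at hcon
    rw [Finset.sum_congr rfl (fun i _ => (hhalf i).resolve_left (hcon i)), Finset.sum_const, Finset.card_univ,
      Fintype.card_fin, nsmul_eq_mul] at hxsum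
    linarith
  have hneg : ∃ i, (inner ℝ l (u i) : ℝ) = -(1 / 2) := by
    by_contra hcon
    push Not at hcon
    rw [Finset.sum_congr rfl (fun i _ => (hhalf i).resolve_right (hcon i)), Finset.sum_const, Finset.card_univ,
      Fintype.card_fin, nsmul_eq_mul] at hxsum
    linarith
  obtain ⟨i0, hi0⟩ := hpos
  obtain ⟨j0, hj0⟩ := hneg
  have hij0 : i0 ≠ j0 := by
    rintro rfl
    rw [hi0] at hj0
    norm_num at hj0
  have hZ2 : ∀ i j, Z i j ≤ 2 := by
    intro i j
    by_cases hij : i = j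
    · have h1 := hZ i j
      rw [hij, sub_self] at h1
      have h2 : Z j j = 0 := by exact_mod_cast h1.symm
      rw [hij, h2]
      norm_num
    · have h1 := spread24 F hX h3 hlX hij hij0
      rw [hi0, hj0, hZ] at h1
      have h2 : (Z i j : ℝ) ≤ 2 := by linarith
      exact_mod_cast h2
  have hZneg : ∀ i j, Z j i = -Z i j := by
    intro i j
    have h1 := hZ i j
    have h2 := hZ j i
    have h4 : (Z j i : ℝ) = ((-Z i j : ℤ) : ℝ) := by
      push_cast
      linarith
    exact_mod_cast h4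
  have hZsq : ∀ i j, (Z i j) ^ 2 ≤ 4 := by
    intro i j
    have h1 := hZ2 i j
    have h2 := hZ2 j i
    rw [hZneg] at h2
    nlinarith
  obtain ⟨W, hW⟩ : ∃ W : ℕ, (W : ℤ) = ∑ i, ∑ j, (Z i j) ^ 2 := by
    have h1 : 0 ≤ ∑ i, ∑ j, (Z i j) ^ 2 := Finset.sum_nonneg fun i _ => Finset.sum_nonneg fun j _ => sq_nonneg _
    exact ⟨(∑ i, ∑ j, (Z i j) ^ 2).toNat, Int.toNat_of_nonneg h1⟩
  have hWle : W ≤ 4 * m ^ 2 := by
    have h1 : (W : ℤ) ≤ ((4 * m ^ 2 : ℕ) : ℤ) := by
      rw [hW]
      refine (Finset.sum_le_sum fun i _ => Finset.sum_le_sum fun j _ => hZsq i j).trans ?_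
      simp only [Finset.sum_const, Finset.card_univ, Fintype.card_fin, nsmul_eq_mul]
      push_cast
      apply le_of_eq
      ring
    exact_mod_cast h1
  have hWR : (W : ℝ) = 2 * m * inner ℝ y y := by
    have h1 : (W : ℝ) = ∑ i, ∑ j, ((inner ℝ y (u i) : ℝ) - inner ℝ y (u j)) ^ 2 := by
      have h2 : ((W : ℤ) : ℝ) = ((∑ i, ∑ j, (Z i j) ^ 2 : ℤ) : ℝ) := by rw [hW]
      rw [Int.cast_natCast] at h2
      rw [h2]
      push_cast
      refine Finset.sum_congr rfl fun i _ => Finset.sum_congr rfl fun j _ => ?_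
      rw [hZ]
    have hysum := F.sum_ax (by omega) y
    rw [h1, F.inner_eq h.inn.y_mem y]
    have h2 : ∀ i j, ((inner ℝ y (u i) : ℝ) - inner ℝ y (u j)) ^ 2 = inner ℝ y (u i) * inner ℝ y (u i) +
        inner ℝ y (u j) * inner ℝ y (u j) - 2 * (inner ℝ y (u i) * inner ℝ y (u j)) := by
      intro i j
      ring
    simp only [h2, Finset.sum_sub_distrib, Finset.sum_add_distrib, Finset.sum_const, Finset.card_univ,
      Fintype.card_fin, nsmul_eq_mul, ← Finset.mul_sum, ← Finset.sum_mul, hysum]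
    ring
  refine ⟨W, hWle, ?_⟩
  have hid := h.inn.idt
  rw [hcas, F.finrank (by omega), F.card, hm1] at hid
  push_cast at hid
  have h6 : ((m.choose (m / 2) * W : ℕ) : ℝ) = ((16 * (m - 1) * s : ℕ) : ℝ) := by
    rw [Nat.cast_mul, ← hn, hWR, Nat.cast_mul, Nat.cast_mul, hm1]
    have h7 : (m : ℝ) + 1 ≠ 0 := by linarith
    refine mul_left_cancel₀ h7 ?_
    push_cast
    linear_combination 2 * hid
  exact_mod_cast h6

/-- BLOCK T4 (helper24) -/
theorem th_A2 : Th SA2 := by
  refine Th.three (3 ^ 7 * 5040 * 16) (fun a b => (Nat.sqrt a).choose (Nat.sqrt a / 2) * b / (16 * (Nat.sqrt a - 1))) ?_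
  rintro s ⟨ι, _, Φ, X, n, l, y, v, m, u, h, hs⟩
  have hm := hs.2.1
  obtain ⟨W, hW, hid⟩ := shapeA2_24 h hs
  have hs0 := h.s_pos
  refine ⟨m ^ 2, W, ?_, ?_, ?_⟩
  · have h1 : m.choose 7 ≤ m.choose (m / 2) := Nat.choose_le_middle 7 m
    have h2 : (m + 1 - 7) ^ 7 ≤ 5040 * m.choose 7 := by
      have h3 := Nat.pow_sub_le_descFactorial m 7
      rw [Nat.descFactorial_eq_factorial_mul_choose] at h3
      exact h3
    have hW0 : 1 ≤ W := by
      rcases Nat.eq_zero_or_pos W with h3 | h3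
      · rw [h3, mul_zero] at hid
        have h4 : 0 < 16 * (m - 1) * s := Nat.mul_pos (by omega) hs0
        omega
      · exact h3
    have h3 : m ≤ 3 * (m + 1 - 7) := by omega
    have h4 : m * (m ^ 2) ^ 3 ≤ m * (3 ^ 7 * 5040 * 16 * s) := by
      calc m * (m ^ 2) ^ 3 = m ^ 7 := by ring
        _ ≤ (3 * (m + 1 - 7)) ^ 7 := Nat.pow_le_pow_left h3 7
        _ = 3 ^ 7 * (m + 1 - 7) ^ 7 := by rw [mul_pow]
        _ ≤ 3 ^ 7 * (5040 * m.choose 7) := Nat.mul_le_mul_left _ h2
        _ ≤ 3 ^ 7 * (5040 * (m.choose (m / 2) * W)) :=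
          Nat.mul_le_mul_left _ (Nat.mul_le_mul_left _ (h1.trans (Nat.le_mul_of_pos_right _ hW0)))
        _ = 3 ^ 7 * (5040 * (16 * (m - 1) * s)) := by rw [hid]
        _ ≤ 3 ^ 7 * (5040 * (16 * m * s)) := Nat.mul_le_mul_left _ (Nat.mul_le_mul_left _
          (Nat.mul_le_mul_right _ (Nat.mul_le_mul_left _ (Nat.sub_le _ _))))
        _ = m * (3 ^ 7 * 5040 * 16 * s) := by ring
    exact Nat.le_of_mul_le_mul_left h4 (by omega)
  · have h1 : 4 * m ^ 2 ≤ 3 ^ 7 * 5040 * 16 * m ^ 2 := Nat.mul_le_mul_right _ (by norm_num)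
    exact hW.trans h1
  · show (Nat.sqrt (m ^ 2)).choose (Nat.sqrt (m ^ 2) / 2) * W / (16 * (Nat.sqrt (m ^ 2) - 1)) = s
    rw [Nat.sqrt_eq', hid]
    exact Nat.mul_div_cancel_left _ (by omega)

end AG
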