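import Pool.Agent.Helper2.AG.Defs
import Pool.Agent.Helper27.HY.A3

/-!
Project AG (MP_b8862a_ag), block X1: type `A`, the highest weight is a root.
-/

set_option linter.unusedSectionVars false
set_option linter.unusedVariables false

open Module PF TF PW

namespace AG

variable {E : Type*} [NormedAddCommGroup E] [InnerProductSpace ℝ E] {Φ X : Finset E} {n s m d : ℕ} {l y v : E} {c : ℝ}
  {u : Fin m → E}

/-- sums over the roots, type `A` -/
theorem sumA24 (F : FrA Φ m u) (f : E → ℝ) :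
    ∑ a ∈ Φ, f a = ∑ p ∈ (Finset.univ : Finset (Fin m)).offDiag, f (u p.1 - u p.2) := by
  classical
  have h1 : Φ = (Finset.univ : Finset (Fin m)).offDiag.image fun p => u p.1 - u p.2 := by
    ext a
    rw [F.mem]
    simp only [Finset.mem_image, Finset.mem_offDiag, Finset.mem_univ, true_and]
    constructor
    · rintro ⟨i, j, hij, rfl⟩
      exact ⟨(i, j), hij, rfl⟩
    · rintro ⟨p, hp, rfl⟩
      exact ⟨p.1, p.2, hp, rfl⟩
  have hi1 : Set.InjOn (fun p : Fin m × Fin m => u p.1 - u p.2)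
      ((Finset.univ : Finset (Fin m)).offDiag : Set (Fin m × Fin m)) := by
    intro p hp q hq h
    have hp' := (Finset.mem_offDiag.1 hp).2.2
    have h1 : (inner ℝ (u p.1 - u p.2) (u p.1) : ℝ) = inner ℝ (u q.1 - u q.2) (u p.1) := by
      have : u p.1 - u p.2 = u q.1 - u q.2 := h
      rw [this]
    have h2 : (inner ℝ (u p.1 - u p.2) (u p.2) : ℝ) = inner ℝ (u q.1 - u q.2) (u p.2) := by
      have : u p.1 - u p.2 = u q.1 - u q.2 := h
      rw [this]
    rw [F.inner_sub, F.inner_sub, if_pos rfl, if_neg hp'.symm] at h1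
    rw [F.inner_sub, F.inner_sub, if_neg hp', if_pos rfl] at h2
    have h3 : q.1 = p.1 := by
      by_contra hc
      rw [if_neg hc] at h1
      split_ifs at h1 <;> norm_num at h1
    have h4 : q.2 = p.2 := by
      by_contra hc
      rw [if_neg hc] at h2
      split_ifs at h2 <;> norm_num at h2
    exact Prod.ext h3.symm h4.symm
  have h2 : ∑ a ∈ ((Finset.univ : Finset (Fin m)).offDiag.image fun p => u p.1 - u p.2), f a =
      ∑ p ∈ (Finset.univ : Finset (Fin m)).offDiag, f (u p.1 - u p.2) := Finset.sum_image hi1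
  rw [← h2, ← h1]

/-- the Casimir constant in coordinates -/
theorem casA24 (F : FrA Φ m u) {x : E} (hx : x ∈ Submodule.span ℝ (Φ : Set E)) (r : Fin m → ℝ)
    (hr : ∀ i, (inner ℝ x (u i) : ℝ) = r i) :
    cas Φ x = ∑ i, r i ^ 2 + (1 / 2) * ∑ i, ∑ j, |r i - r j| := by
  unfold cas
  rw [sumA24 F]
  have h1 : ∀ p : Fin m × Fin m, |(inner ℝ x (u p.1 - u p.2) : ℝ)| = |r p.1 - r p.2| := by
    intro p
    rw [F.inner_sub', hr, hr]
  rw [Finset.sum_congr rfl fun p _ => h1 p, sum_off fun i j => |r i - r j|]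
  simp only [sub_self, abs_zero, Finset.sum_const_zero, sub_zero]
  rw [F.inner_eq hx x]
  simp only [hr, sq]

/-- the Casimir constant of a weight with the coordinates `1`, `0`, `-1` -/
theorem casA_int24 (F : FrA Φ m u) (hm : 0 < m) {x : E} (hx : x ∈ Submodule.span ℝ (Φ : Set E)) {z : Fin m → ℤ}
    (hz : ∀ i, (inner ℝ x (u i) : ℝ) = z i) (h1 : ∀ i, |z i| ≤ 1) {k : ℕ} (hk : ∑ i, |z i| = 2 * k) :
    cas Φ x = 2 * k * (m + 1 - k) := by
  have hc : ∀ i, z i = 0 ∨ z i = 1 ∨ z i = -1 := by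
    intro i
    have := h1 i
    rw [abs_le] at this
    omega
  rw [casA24 F hx (fun i => (z i : ℝ)) hz]
  have hs0 : ∑ i, (z i : ℝ) = 0 := by
    have h2 := F.sum_ax hm x
    simpa only [hz] using h2
  have hs2 : ∑ i, (z i : ℝ) ^ 2 = 2 * k := by
    have h2 : ∑ i, (z i : ℝ) ^ 2 = ((∑ i, |z i| : ℤ) : ℝ) := by
      push_cast
      refine Finset.sum_congr rfl fun i _ => ?_
      rcases hc i with h | h | h <;> rw [h] <;> norm_num
    rw [h2, hk]
    push_cast
    ring
  have h3 : ∀ i j, |(z i : ℝ) - z j| = (z i : ℝ) ^ 2 + (z j : ℝ) ^ 2 - (z i : ℝ) ^ 2 * (z j : ℝ) ^ 2 - z i * z j := by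
    intro i j
    rcases hc i with h | h | h <;> rcases hc j with h' | h' | h' <;> rw [h, h'] <;> norm_num
  simp only [h3, Finset.sum_sub_distrib, Finset.sum_add_distrib, Finset.sum_const, Finset.card_univ, Fintype.card_fin,
    nsmul_eq_mul, ← Finset.mul_sum, ← Finset.sum_mul, hs0, hs2]
  ring

/-- the Casimir constant of a weight with the coordinates `1/2`, `-1/2` -/
theorem casA_half24 (F : FrA Φ m u) (hm : 0 < m) {x : E} (hx : x ∈ Submodule.span ℝ (Φ : Set E))
    (h1 : ∀ i, (inner ℝ x (u i) : ℝ) = 1 / 2 ∨ (inner ℝ x (u i) : ℝ) = -(1 / 2)) :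
    cas Φ x = m * (m + 1) / 4 := by
  rw [casA24 F hx (fun i => (inner ℝ x (u i) : ℝ)) fun _ => rfl]
  have hs0 := F.sum_ax hm x
  have hs2 : ∑ i, (inner ℝ x (u i) : ℝ) ^ 2 = m / 4 := by
    have h2 : ∀ i, (inner ℝ x (u i) : ℝ) ^ 2 = 1 / 4 := by
      intro i
      rcases h1 i with h | h <;> rw [h] <;> norm_num
    simp only [h2, Finset.sum_const, Finset.card_univ, Fintype.card_fin, nsmul_eq_mul]
    ring
  have h3 : ∀ i j, |(inner ℝ x (u i) : ℝ) - inner ℝ x (u j)| = 1 / 2 - 2 * (inner ℝ x (u i) * inner ℝ x (u j)) := by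
    intro i j
    rcases h1 i with h | h <;> rcases h1 j with h' | h' <;> rw [h, h'] <;> norm_num
  simp only [h3, Finset.sum_sub_distrib, Finset.sum_const, Finset.card_univ, Fintype.card_fin,
    nsmul_eq_mul, ← Finset.mul_sum, ← Finset.sum_mul, hs0, hs2]
  ring

/-- the roots are weights, if the highest weight is a root -/
theorem rootA24 (F : FrA Φ m u) (hX : Sat Φ X) (hlX : l ∈ X) (hl : l ∈ Φ) {i j : Fin m} (hij : i ≠ j) :
    u i - u j ∈ X := by
  obtain ⟨a, b, hab, rfl⟩ := (F.mem l).1 hl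
  obtain ⟨σ, hσ⟩ := exists_perm ![i, j] ![a, b]
    (by
      intro s t hst
      fin_cases s <;> fin_cases t <;> simp_all)
    (by
      intro s t hst
      fin_cases s <;> fin_cases t <;> simp_all)
  have s0 : σ i = a := hσ 0
  have s1 : σ j = b := hσ 1
  obtain ⟨x', hx', h⟩ := F.perm hX σ _ hlX
  have h1 : x' = u i - u j := by
    refine F.eq_of (Sat.span27 hX hx') (Submodule.subset_span (F.mem' hij)) fun k => ?_
    rw [h k, F.inner_sub, F.inner_sub]
    have e1 : (a = σ k) ↔ (i = k) := by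
      rw [← s0]
      exact σ.injective.eq_iff
    have e2 : (b = σ k) ↔ (j = k) := by
      rw [← s1]
      exact σ.injective.eq_iff
    simp only [e1, e2]
  rw [← h1]
  exact hx'

/-- BLOCK X1 (helper24) -/
theorem exc_A {u : Fin m → E} (h : D3 Φ X n s l y v) (F : FrA Φ m u) (hm : 9 ≤ m) (hl : l ∈ Φ) : Exc s (n - 2 * s) := by
  classical
  have hm0 : (0 : ℝ) < m := by exact_mod_cast (by omega : 0 < m)
  have hX := h.inn.sat
  have hlX := h.inn.l_mem
  have hy := h.inn.y_mem
  -- the dimension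
  have hn := h.adj hl fun a ha => by
    obtain ⟨i, j, hij, rfl⟩ := (F.mem a).1 ha
    obtain ⟨i', j', hij', rfl⟩ := (F.mem l).1 hl
    rw [F.norm hij, F.norm hij']
  have hcard := F.card
  have hnR : (n : ℝ) = m ^ 2 - 1 := by
    have h1 : ((n : ℕ) : ℝ) = ((finrank ℝ (Submodule.span ℝ (Φ : Set E)) + Φ.card : ℕ) : ℝ) := by rw [← hn]
    rw [h1, Nat.cast_add, hcard, F.finrank (by omega), Nat.cast_sub (by omega)]
    push_cast
    ring
  -- the levels of the roots
  have hlev : ∀ i j : Fin m, (inner ℝ y (u i) : ℝ) - inner ℝ y (u j) = -1 ∨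
      (inner ℝ y (u i) : ℝ) - inner ℝ y (u j) = 0 ∨ (inner ℝ y (u i) : ℝ) - inner ℝ y (u j) = 1 := by
    intro i j
    by_cases hij : i = j
    · right; left; rw [hij, sub_self]
    · have h1 := h.lev _ (rootA24 F hX hlX hl hij)
      rw [real_inner_comm, F.inner_sub'] at h1
      exact h1
  -- the smallest coordinate
  obtain ⟨p, -, hp⟩ := Finset.exists_min_image (Finset.univ : Finset (Fin m)) (fun i => (inner ℝ y (u i) : ℝ))
    ⟨⟨0, by omega⟩, Finset.mem_univ _⟩
  obtain ⟨a, ha⟩ : ∃ a : ℝ, a = inner ℝ y (u p) := ⟨_, rfl⟩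
  have hval : ∀ i, (inner ℝ y (u i) : ℝ) = a ∨ (inner ℝ y (u i) : ℝ) = a + 1 := by
    intro i
    have h1 := hp i (Finset.mem_univ i)
    rcases hlev i p with h2 | h2 | h2
    · rw [← ha] at h1 h2
      linarith
    · left
      rw [← ha] at h2
      linarith
    · right
      rw [← ha] at h2
      linarith
  obtain ⟨K, hK⟩ : ∃ K, K = (Finset.univ.filter fun i => (inner ℝ y (u i) : ℝ) = a + 1).card := ⟨_, rfl⟩
  have hKm : K ≤ m := by
    rw [hK]
    refine (Finset.card_filter_le _ _).trans ?_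
    rw [Finset.card_univ, Fintype.card_fin]
  have hKs : (K : ℝ) = ∑ i, if (inner ℝ y (u i) : ℝ) = a + 1 then (1 : ℝ) else 0 := by
    rw [hK, Finset.card_filter]
    push_cast
    rfl
  have hform : ∀ i, (inner ℝ y (u i) : ℝ) = a + if (inner ℝ y (u i) : ℝ) = a + 1 then (1 : ℝ) else 0 := by
    intro i
    rcases hval i with h1 | h1
    · rw [if_neg (by rw [h1]; linarith), h1, add_zero]
    · rw [if_pos h1, h1]
  have hsum := F.sum_ax (by omega) y
  have ha2 : (m : ℝ) * a + K = 0 := by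
    have h1 : ∑ i, (inner ℝ y (u i) : ℝ) = m * a + K := by
      rw [hKs, Finset.sum_congr rfl fun i _ => hform i, Finset.sum_add_distrib, Finset.sum_const,
        Finset.card_univ, Fintype.card_fin, nsmul_eq_mul]
    rw [← h1, hsum]
  have hyy : (inner ℝ y y : ℝ) = m * a ^ 2 + K * (2 * a + 1) := by
    rw [F.inner_eq hy y]
    have h2 : ∀ i, (inner ℝ y (u i) : ℝ) * inner ℝ y (u i) =
        a ^ 2 + (2 * a + 1) * if (inner ℝ y (u i) : ℝ) = a + 1 then (1 : ℝ) else 0 := by
      intro i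
      rcases hval i with h1 | h1
      · rw [if_neg (by rw [h1]; linarith), h1]
        ring
      · rw [if_pos h1, h1]
        ring
    rw [Finset.sum_congr rfl fun i _ => h2 i, Finset.sum_add_distrib, Finset.sum_const, Finset.card_univ,
      Fintype.card_fin, nsmul_eq_mul, ← Finset.mul_sum, ← hKs]
    ring
  -- the Casimir constant
  obtain ⟨b, c, hbc, hl2⟩ := (F.mem l).1 hl
  have hcas : cas Φ l = 2 * m := by
    have h1 := casA_int24 F (by omega) (Sat.span27 hX hlX)
      (z := fun i => (if b = i then 1 else 0) - (if c = i then 1 else 0)) (fun i => by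
        rw [hl2, F.inner_sub]
        push_cast
        rfl) (fun i => by
        by_cases h1 : b = i
        · by_cases h2 : c = i
          · exact absurd (h1.trans h2.symm) hbc
          · simp [h1, h2]
        · by_cases h2 : c = i
          · simp [h1, h2]
          · simp [h1, h2]) (k := 1) (by
        have h1 : ∀ i : Fin m, |((if b = i then (1 : ℤ) else 0) - (if c = i then 1 else 0))| =
            (if b = i then 1 else 0) + (if c = i then 1 else 0) := by
          intro i
          by_cases h1 : b = i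
          · by_cases h2 : c = i
            · exact absurd (h1.trans h2.symm) hbc
            · simp [h1, h2]
          · by_cases h2 : c = i
            · simp [h1, h2]
            · simp [h1, h2]
        rw [Finset.sum_congr rfl fun i _ => h1 i, Finset.sum_add_distrib, Finset.sum_ite_eq, Finset.sum_ite_eq]
        simp)
    rw [h1]
    push_cast
    ring
  -- the identity
  have hid := h.inn.idt
  have hm1 : ((m - 1 : ℕ) : ℝ) = m - 1 := by
    rw [Nat.cast_sub (by omega)]; norm_num
  rw [hcas, hyy, F.finrank (by omega), hcard, hm1, hnR] at hid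
  push_cast at hid
  have hm9 : (9 : ℝ) ≤ m := by exact_mod_cast hm
  have hpos : (m : ℝ) ^ 2 - 1 ≠ 0 := by nlinarith
  have hs : (s : ℝ) = K * (m - K) := by
    have h1 : ((m : ℝ) ^ 2 - 1) * (8 * s) = (m ^ 2 - 1) * (8 * (K * (m - K))) := by
      have h2 : (m : ℝ) * (m * a ^ 2 + K * (2 * a + 1)) = K * (m - K) := by
        linear_combination ((m : ℝ) * a + K) * ha2
      linear_combination -hid + 8 * ((m : ℝ) ^ 2 - 1) * h2
    have := mul_left_cancel₀ hpos h1
    linarith
  obtain ⟨L, hL⟩ : ∃ L, m = K + L := ⟨m - K, by omega⟩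
  have hLR : (m : ℝ) = K + L := by exact_mod_cast hL
  have hs2 : s = K * L := by
    have h1 : (s : ℝ) = ((K * L : ℕ) : ℝ) := by
      rw [hs, hLR]
      push_cast
      ring
    exact_mod_cast h1
  refine Or.inr (Or.inr (Or.inl ⟨K, L, hs2, ?_⟩))
  have hn2 : n + 1 = m ^ 2 := by
    have h1 : ((n + 1 : ℕ) : ℝ) = ((m ^ 2 : ℕ) : ℝ) := by
      push_cast
      rw [hnR]
      ring
    exact_mod_cast h1
  have h2 := h.h_pos
  have h3 : n - 2 * s + 1 + 2 * (K * L) = K ^ 2 + L ^ 2 + 2 * (K * L) := by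
    have h4 : n - 2 * s + 1 + 2 * s = n + 1 := by omega
    rw [← hs2, h4, hn2, hL, hs2]
    ring
  omega

end AG
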