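import Pool.Agent.Helper24.AG.V2a
import Pool.Agent.Helper86.AC.V
import Pool.Agent.Helper75.AG.Sh

/-!
# AG-V2: the chart with a fixed height: change of variables

For fixed `y`, `A₂ = T q y²/2`, `A₃ = A₂ (- x + β y)`, `A₂ A₄ = A₃² - κ A₂² y²`, `q`, `β`, `κ` functions of `θ`; the Jacobian of `(T, x, θ) ↦ A`
is `q y⁴ A₂² |κ'| / 2`.
-/

open MeasureTheory Real Set Filter Topology

set_option autoImplicit false

namespace Pool.Agent.Helper24.AG

open Pool.Agent.Helper60.LT (Fr Tf xf yf df vf fr fr_coord fr_meas int_fr sl Hom Cv)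
open Pool.Agent.Helper60.QL (R3 OM UB)
open Pool.Agent.Helper48.QL (df_meas lint3 coord_bd UB_bd)
open Pool.Agent.Helper3.AC
open Pool.Agent.Helper92.AG
open Pool.Agent.Helper86.AC (sub1 sub2 UP_meas UP_pos UP_UB)

/-- the integral over the frames with direction `θ` and height `y` -/
noncomputable def Ry (Ψ : Fr → ENNReal) (θ y : ℝ) : ENNReal :=
  ∫⁻ T in Ioi (0 : ℝ), ∫⁻ x, ENNReal.ofReal (T ^ 3) * Ψ (fr θ y T x)

theorem Rt_eq (Ψ : Fr → ENNReal) (θ : ℝ) : Rt Ψ θ = ∫⁻ y, Ry Ψ θ y := rfl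

theorem Ry_meas {Ψ : Fr → ENNReal} (hΨ : Measurable Ψ) : Measurable (fun p : ℝ × ℝ => Ry Ψ p.1 p.2) := by
  unfold Ry
  have h1 : Measurable (fun q : ((ℝ × ℝ) × ℝ) × ℝ => (q.1.1.1, q.1.1.2, q.1.2, q.2)) := by fun_prop
  have h2 : Measurable (fun q : ((ℝ × ℝ) × ℝ) × ℝ => Ψ (fr q.1.1.1 q.1.1.2 q.1.2 q.2)) := (hΨ.comp fr_meas).comp h1
  have h3 : Measurable (fun q : ((ℝ × ℝ) × ℝ) × ℝ => ENNReal.ofReal (q.1.2 ^ 3)) := by fun_prop
  have h4 : Measurable (fun q : (ℝ × ℝ) × ℝ => ∫⁻ x, ENNReal.ofReal (q.2 ^ 3) * Ψ (fr q.1.1 q.1.2 q.2 x)) :=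
    (h3.mul h2).lintegral_prod_right'
  exact h4.lintegral_prod_right'

/-- the weight -/
noncomputable def wt (q y a : ℝ) : ℝ := 2 / (q * y ^ 2) * (1 / a * (2 * a / (q * y ^ 2)) ^ 3)

/-- for a fixed height -/
theorem int_y {Ψ : Fr → ENNReal} (hΨ : Measurable Ψ) {q β : ℝ → ℝ} (hq : Measurable q) (hβ : Measurable β) (hq0 : ∀ θ, 0 < q θ)
    {y : ℝ} (hy : 0 < y) (s : Set ℝ) :
    ∫⁻ θ in s, Ry Ψ θ y = ∫⁻ a in Ioi (0 : ℝ), ∫⁻ b, ∫⁻ θ in s,
      ENNReal.ofReal (wt (q θ) y a) * Ψ (fr θ y (2 * a / (q θ * y ^ 2)) (-(b / a) + β θ * y)) := by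
  obtain ⟨G, hG⟩ : ∃ G : ℝ → ℝ → ℝ → ENNReal, G = fun θ a b => ENNReal.ofReal (wt (q θ) y a) *
    Ψ (fr θ y (2 * a / (q θ * y ^ 2)) (-(b / a) + β θ * y)) := ⟨_, rfl⟩
  have hGm : Measurable (fun p : ℝ × ℝ × ℝ => G p.1 p.2.1 p.2.2) := by
    have hq' : Measurable (fun p : ℝ × ℝ × ℝ => q p.1) := hq.comp measurable_fst
    have hβ' : Measurable (fun p : ℝ × ℝ × ℝ => β p.1) := hβ.comp measurable_fst
    have h1 : Measurable (fun p : ℝ × ℝ × ℝ => (p.1, y, 2 * p.2.1 / (q p.1 * y ^ 2), -(p.2.2 / p.2.1) + β p.1 * y)) := by fun_prop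
    have h2 : Measurable (fun p : ℝ × ℝ × ℝ => ENNReal.ofReal (wt (q p.1) y p.2.1)) := by
      unfold wt
      fun_prop
    rw [hG]
    exact h2.mul ((hΨ.comp fr_meas).comp h1)
  have e1 : ∫⁻ θ in s, Ry Ψ θ y = ∫⁻ θ in s, ∫⁻ a in Ioi (0 : ℝ), ∫⁻ b, G θ a b := by
    refine lintegral_congr fun θ => ?_
    unfold Ry
    rw [sub1 _ hy.ne' (hq0 θ)]
    refine setLIntegral_congr_fun measurableSet_Ioi fun a ha => ?_
    have ha' : 0 < a := ha
    have hqθ := hq0 θ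
    rw [sub2 _ ha' (β θ * y), ← lintegral_const_mul' _ _ ENNReal.ofReal_ne_top, hG]
    refine lintegral_congr fun b => ?_
    simp only
    rw [← mul_assoc, ← mul_assoc, ← ENNReal.ofReal_mul (by positivity), ← ENNReal.ofReal_mul (by positivity)]
    unfold wt
    rw [mul_assoc]
  rw [e1]
  have e2 : ∫⁻ θ in s, ∫⁻ a in Ioi (0 : ℝ), ∫⁻ b, G θ a b = ∫⁻ a in Ioi (0 : ℝ), ∫⁻ θ in s, ∫⁻ b, G θ a b := by
    refine lintegral_lintegral_swap (f := fun θ a => ∫⁻ b, G θ a b) ?_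
    have h1 : Measurable (fun p : (ℝ × ℝ) × ℝ => G p.1.1 p.1.2 p.2) :=
      hGm.comp (measurable_fst.fst.prodMk (measurable_fst.snd.prodMk measurable_snd))
    exact h1.lintegral_prod_right'.aemeasurable
  rw [e2]
  refine lintegral_congr fun a => ?_
  have e3 : ∫⁻ θ in s, ∫⁻ b, G θ a b = ∫⁻ b, ∫⁻ θ in s, G θ a b := by
    refine lintegral_lintegral_swap (f := fun θ b => G θ a b) ?_
    exact (hGm.comp (measurable_fst.prodMk (measurable_const.prodMk measurable_snd))).aemeasurable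
  rw [e3, hG]

/-! ## the substitution `θ ↦ A₄` -/

/-- `A₄` as a function of the direction -/
noncomputable def cc (h : ℝ × ℝ → ℝ) (y a b θ : ℝ) : ℝ := (b ^ 2 - ka h θ * a ^ 2 * y ^ 2) / a

section sub

variable {c₁ B₀ c r z σ : ℝ} {h : ℝ × ℝ → ℝ}

theorem cc_mul {y a b θ : ℝ} (ha : 0 < a) : cc h y a b θ * a = b ^ 2 - ka h θ * a ^ 2 * y ^ 2 := by
  unfold cc
  field_simp

theorem vA_cc {y a b θ : ℝ} (ha : 0 < a) (hy : 0 < y) : vA y (a, b, cc h y a b θ) = ka h θ := by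
  show (b ^ 2 - cc h y a b θ * a) / (a ^ 2 * y ^ 2) = ka h θ
  rw [cc_mul ha]
  field_simp
  ring

theorem fZ_cc (hc : 0 < c) (hd : Differentiable ℝ (ka h)) (hg : Gd c r z σ h) {y a b θ : ℝ} (ha : 0 < a) (hy : 0 < y)
    (hθ : |θ - z| ≤ r) : fZ h z r σ y (a, b, cc h y a b θ) = fr θ y (2 * a / (p2 h θ * y ^ 2)) (-(b / a) + be h θ * y) := by
  have e1 : tA h z r σ y (a, b, cc h y a b θ) = θ := by
    unfold tA
    rw [vA_cc ha hy, th_ka hc hd hg hθ]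
  unfold fZ TZ xZ
  rw [e1]

/-- change of variables -/
theorem int_cc (hc : 0 < c) (hd : Differentiable ℝ (ka h)) (hg : Gd c r z σ h) {y a b : ℝ} (ha : 0 < a) (hy : 0 < y) (Φ : ℝ → ENNReal) :
    ∫⁻ x in cc h y a b '' {θ | |θ - z| ≤ r}, Φ x =
      ∫⁻ θ in {θ | |θ - z| ≤ r}, ENNReal.ofReal (|deriv (ka h) θ| * a * y ^ 2) * Φ (cc h y a b θ) := by
  have hs : MeasurableSet {θ : ℝ | |θ - z| ≤ r} := measurableSet_le (by fun_prop) measurable_const
  have key := lintegral_image_eq_lintegral_abs_deriv_mul (s := {θ | |θ - z| ≤ r}) (f := cc h y a b)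
    (f' := fun θ => -(deriv (ka h) θ * a ^ 2 * y ^ 2) / a) hs (fun θ _ => by
      have h1 : HasDerivAt (ka h) (deriv (ka h) θ) θ := (hd θ).hasDerivAt
      exact ((((h1.mul_const (a ^ 2)).mul_const (y ^ 2)).const_sub (b ^ 2)).div_const a).hasDerivWithinAt) (by
      intro θ hθ θ' hθ' hab
      have h1 : cc h y a b θ * a = cc h y a b θ' * a := by rw [hab]
      rw [cc_mul ha, cc_mul ha] at h1
      have h2 : ka h θ * (a ^ 2 * y ^ 2) = ka h θ' * (a ^ 2 * y ^ 2) := by linarith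
      have h3 : ka h θ = ka h θ' := mul_right_cancel₀ (by positivity) h2
      rw [← th_ka hc hd hg hθ, ← th_ka hc hd hg hθ', h3]) Φ
  rw [key]
  refine lintegral_congr fun θ => ?_
  congr 2
  rw [abs_div, abs_neg, abs_mul, abs_mul, abs_of_pos (show 0 < a ^ 2 by positivity), abs_of_pos (show 0 < y ^ 2 by positivity),
    abs_of_pos ha]
  field_simp

end sub

theorem set_meas (z r : ℝ) : MeasurableSet {θ : ℝ | |θ - z| ≤ r} := measurableSet_le (by fun_prop) measurable_const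

/-- the heights of the frames of size `X` -/
theorem Ry_zero {B X Y θ y : ℝ} (F : Fr → ENNReal) (hB : 1 ≤ B) (hX : 0 < X) (hY : 4 * B ^ 3 ≤ Y) (hy : y ∉ Icc (1 / Y) Y) :
    Ry ((UP B X).indicator F) θ y = 0 := by
  have hB0 : 0 < B := by linarith
  have hY0 : 0 < Y := lt_of_lt_of_le (by positivity) hY
  unfold Ry
  rw [← nonpos_iff_eq_zero, ← lintegral_zero (μ := volume.restrict (Ioi (0 : ℝ)))]
  refine setLIntegral_mono' measurableSet_Ioi fun T hT => ?_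
  rw [nonpos_iff_eq_zero]
  have hT' : 0 < T := hT
  have h1 : ∀ x, ENNReal.ofReal (T ^ 3) * (UP B X).indicator F (fr θ y T x) = 0 := by
    intro x
    obtain ⟨e1, e2, e3, e4⟩ := fr_coord (θ := θ) (y := y) (T := T) (x := x) hT'
    rw [indicator_of_notMem, mul_zero]
    intro hU
    obtain ⟨-, g2, g3, g4, -, -⟩ := UB_bd hB0.le hX (UP_UB hB0 hU)
    have hp := UP_pos hB0 hX hU
    rw [e4] at hp
    rw [e1, e3] at g4
    rw [e1, e2, e3] at g3
    rw [e1] at g2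
    have hy0 : 0 < y := by
      by_contra hcon
      push Not at hcon
      have : T ^ 2 * y ≤ 0 := mul_nonpos_of_nonneg_of_nonpos (by positivity) hcon
      linarith
    obtain ⟨-, -, -, k4, k5⟩ := coord_bd hT' hX hB g2 g3 g4
    rw [abs_of_pos hy0] at k4 k5
    refine hy ⟨?_, k4.trans hY⟩
    rw [div_le_iff₀ hY0]
    calc 1 ≤ 4 * B ^ 3 * y := k5
      _ ≤ Y * y := by gcongr
      _ = y * Y := mul_comm _ _
  simp only [h1, lintegral_zero]

theorem Rt_Icc {B X Y θ : ℝ} (F : Fr → ENNReal) (hB : 1 ≤ B) (hX : 0 < X) (hY : 4 * B ^ 3 ≤ Y) :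
    Rt ((UP B X).indicator F) θ = ∫⁻ y in Icc (1 / Y) Y, Ry ((UP B X).indicator F) θ y := by
  rw [Rt_eq, ← lintegral_indicator measurableSet_Icc]
  refine lintegral_congr fun y => ?_
  by_cases hy : y ∈ Icc (1 / Y) Y
  · rw [indicator_of_mem hy]
  · rw [indicator_of_notMem hy, Ry_zero F hB hX hY hy]

/-- the integral over the directions near `z` is at most the integral over all directions -/
theorem Rt_per {z r : ℝ} (hr1 : r ≤ 1) (Ψ : Fr → ENNReal) : ∫⁻ θ in {θ | |θ - z| ≤ r}, Rt Ψ θ ≤ ∫⁻ θ in Ioc (-π) π, Rt Ψ θ := by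
  have hfd1 := isAddFundamentalDomain_Ioc (T := 2 * π) (by positivity) (z - r - 1) (volume : Measure ℝ)
  have hfd2 := isAddFundamentalDomain_Ioc (T := 2 * π) (by positivity) (-π) (volume : Measure ℝ)
  have key : ∫⁻ θ in Ioc (z - r - 1) (z - r - 1 + 2 * π), Rt Ψ θ = ∫⁻ θ in Ioc (-π) (-π + 2 * π), Rt Ψ θ := by
    refine hfd1.setLIntegral_eq hfd2 _ fun g θ => ?_
    obtain ⟨n, hn⟩ := AddSubgroup.mem_zmultiples_iff.1 g.2
    have e : g +ᵥ θ = θ + n * (2 * π) := by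
      have : g +ᵥ θ = (g : ℝ) + θ := rfl
      rw [this, ← hn, zsmul_eq_mul]
      ring
    rw [e]
    unfold Rt fr
    rw [Real.cos_add_int_mul_two_pi, Real.sin_add_int_mul_two_pi]
  have e2 : -π + 2 * π = π := by ring
  rw [e2] at key
  rw [← key]
  refine lintegral_mono_set fun θ hθ => ?_
  have h1 := (mem_iff θ).1 hθ
  have h2 := pi_gt_three
  exact ⟨by linarith [h1.1], by linarith [h1.2]⟩

end Pool.Agent.Helper24.AG

namespace Pool.Agent.Helper92.AG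

open Pool.Agent.Helper60.LT (Fr Tf xf yf df vf fr fr_coord fr_meas int_fr sl Hom Cv)
open Pool.Agent.Helper60.QL (R3 OM UB)
open Pool.Agent.Helper48.QL (df_meas lint3 coord_bd UB_bd shr shr_meas shear_int shr_neg)
open Pool.Agent.Helper3.AC
open Pool.Agent.Helper86.AC (UP_meas UP_pos UP_UB IH_eq shr_UP)
open Pool.Agent.Helper24.AG

theorem up2 {c₁ B₀ B c r Y e κ₁ : ℝ} (hc₁ : 0 < c₁) (hB₀ : 1 ≤ B₀) (hB : 1 ≤ B) (hc : 0 < c) (hr : 0 < r) (hr1 : r ≤ 1)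
    (hY : 4 * B ^ 3 ≤ Y) (he : 0 < e) (heY : e * Y ^ 2 ≤ c * r / 2) (hκ : 0 < κ₁) (hκe : κ₁ * Y ^ 2 ≤ e) : ∃ B' C : ℝ, B ≤ B' ∧ 1 ≤ C ∧
    ∀ h : ℝ × ℝ → ℝ, HG c₁ B₀ h → ∀ z σ : ℝ, Gd c r z σ h → ∀ (X : ℝ) (F : Fr → ENNReal), 0 < X → Measurable F →
    ∫⁻ θ in {θ | |θ - z| ≤ r ∧ |ka h θ| ≤ κ₁}, Rt ((UP B X).indicator F) θ ≤
      ENNReal.ofReal (C * X) * ∫⁻ y in Icc (1 / Y) Y, ∫⁻ A in OZ B' e X, F (fZ h z r σ y A) := by
  obtain ⟨M, hM, hPg⟩ := exists_Pg hc₁ hB₀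
  have hM0 : 0 < M := by linarith
  have hB0 : 0 < B := by linarith
  have hY0 : 0 < Y := lt_of_lt_of_le (by positivity) hY
  have hB22 : B ≤ B ^ 22 := le_self_pow₀ hB (by norm_num)
  have hM3 : 1 ≤ M ^ 3 := one_le_pow₀ hM
  refine ⟨65536 * M ^ 3 * B ^ 22, 16 * B * M ^ 3 * Y ^ 8 / c + 1, ?_, ?_, fun h hh z σ hg X F hX hF => ?_⟩
  · calc B ≤ 1 * 1 * B ^ 22 := by linarith
      _ ≤ _ := by gcongr; norm_num
  · have : 0 ≤ 16 * B * M ^ 3 * Y ^ 8 / c := by positivity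
    linarith
  have hd := hh.kd
  have hσ := hg.1
  obtain ⟨B', hB'⟩ : ∃ B', B' = 65536 * M ^ 3 * B ^ 22 := ⟨_, rfl⟩
  obtain ⟨C, hC⟩ : ∃ C, C = 16 * B * M ^ 3 * Y ^ 8 / c + 1 := ⟨_, rfl⟩
  rw [← hB', ← hC]
  obtain ⟨Ψ, hΨ⟩ : ∃ Ψ, Ψ = (UP B X).indicator F := ⟨_, rfl⟩
  have hΨm : Measurable Ψ := by
    rw [hΨ]
    exact hF.indicator (UP_meas _ _)
  rw [← hΨ]
  have hkc : Continuous (ka h) := hd.continuous
  have hs1 : MeasurableSet {θ : ℝ | |θ - z| ≤ r ∧ |ka h θ| ≤ κ₁} :=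
    (set_meas z r).inter (measurableSet_le hkc.measurable.abs measurable_const)
  have e1 : ∫⁻ θ in {θ | |θ - z| ≤ r ∧ |ka h θ| ≤ κ₁}, Rt Ψ θ =
      ∫⁻ y in Icc (1 / Y) Y, ∫⁻ θ in {θ | |θ - z| ≤ r ∧ |ka h θ| ≤ κ₁}, Ry Ψ θ y := by
    rw [← lintegral_lintegral_swap]
    · refine lintegral_congr fun θ => ?_
      rw [hΨ]
      exact Rt_Icc F hB hX hY
    · exact (Ry_meas hΨm).aemeasurable
  rw [e1, ← lintegral_const_mul' _ _ ENNReal.ofReal_ne_top]
  refine setLIntegral_mono' measurableSet_Icc fun y hy => ?_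
  have hy0 : 0 < y := lt_of_lt_of_le (by positivity) hy.1
  rw [int_y hΨm (p2_meas hh) (be_meas hh) (fun θ => (hPg h hh θ).q0) hy0]
  have hFm : Measurable (fun A : R3 => F (fZ h z r σ y A)) := hF.comp (fZ_meas hh hr hσ y)
  have hOm : Measurable ((OZ B' e X).indicator fun A => F (fZ h z r σ y A)) := hFm.indicator (OZ_meas _ _ _)
  rw [← lintegral_indicator (OZ_meas _ _ _), lint3 hOm, ← lintegral_const_mul' _ _ ENNReal.ofReal_ne_top,
    ← lintegral_indicator measurableSet_Ioi]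
  refine lintegral_mono fun a => ?_
  simp only
  by_cases ha : 0 < a
  swap
  · rw [indicator_of_notMem (show a ∉ Ioi (0 : ℝ) from ha)]
    exact zero_le
  rw [indicator_of_mem (show a ∈ Ioi (0 : ℝ) from ha), ← lintegral_const_mul' _ _ ENNReal.ofReal_ne_top]
  refine lintegral_mono fun b => ?_
  simp only
  rw [← lintegral_const_mul' _ _ ENNReal.ofReal_ne_top]
  calc ∫⁻ θ in {θ | |θ - z| ≤ r ∧ |ka h θ| ≤ κ₁}, ENNReal.ofReal (wt (p2 h θ) y a) *
          Ψ (fr θ y (2 * a / (p2 h θ * y ^ 2)) (-(b / a) + be h θ * y))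
      ≤ ∫⁻ θ in {θ | |θ - z| ≤ r ∧ |ka h θ| ≤ κ₁}, ENNReal.ofReal (|deriv (ka h) θ| * a * y ^ 2) *
          (ENNReal.ofReal (C * X) * (OZ B' e X).indicator (fun A => F (fZ h z r σ y A)) (a, b, cc h y a b θ)) := by
        refine setLIntegral_mono' hs1 fun θ hθ => ?_
        obtain ⟨hθ1, hθ2⟩ := hθ
        have hP := hPg h hh θ
        have hq := hP.q0
        obtain ⟨T, hT⟩ : ∃ T, T = 2 * a / (p2 h θ * y ^ 2) := ⟨_, rfl⟩
        obtain ⟨x, hx⟩ : ∃ x, x = -(b / a) + be h θ * y := ⟨_, rfl⟩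
        have hT0 : 0 < T := by
          rw [hT]
          positivity
        rw [← hT, ← hx]
        by_cases hU : fr θ y T x ∈ UP B X
        swap
        · rw [hΨ, indicator_of_notMem hU, mul_zero]
          exact zero_le
        rw [hΨ, indicator_of_mem hU]
        obtain ⟨k1, k2, k3, k4⟩ := fr_coord (θ := θ) (y := y) (T := T) (x := x) hT0
        obtain ⟨-, g2, g3, g4, -, -⟩ := UB_bd hB0.le hX (UP_UB hB0 hU)
        rw [k1, k3] at g4
        rw [k1, k2, k3] at g3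
        rw [k1] at g2
        obtain ⟨l1, -, -, -, -⟩ := coord_bd hT0 hX hB g2 g3 g4
        have hTa : T * (p2 h θ * y ^ 2) = 2 * a := by
          rw [hT]
          field_simp
        have haT : a = T * p2 h θ * y ^ 2 / 2 := by linarith
        have hmem : (a, b, cc h y a b θ) ∈ OZ B' e X := by
          rw [hB']
          refine OZ_of (y := y) (T := T) (x := x) hP hT0 hX hB g2 g3 g4 haT ?_ (cc_mul ha) ?_
          · rw [hx]
            field_simp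
            ring
          · calc |ka h θ| * y ^ 2 ≤ κ₁ * Y ^ 2 := by
                  have := hy.2
                  gcongr
              _ ≤ e := hκe
        rw [indicator_of_mem hmem, fZ_cc hc hd hg ha hy0 hθ1, ← hT, ← hx, ← mul_assoc, ← ENNReal.ofReal_mul (by positivity)]
        refine mul_le_mul_left (ENNReal.ofReal_le_ofReal ?_) _
        have hk' : c ≤ |deriv (ka h) θ| := by
          have h1 := hg.2.2.2 θ hθ1
          have h2 : |σ * deriv (ka h) θ| = |deriv (ka h) θ| := by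
            rw [abs_mul]
            rcases hσ with h3 | h3
            · rw [h3, abs_one, one_mul]
            · rw [h3, abs_neg, abs_one, one_mul]
          rw [← h2]
          exact h1.trans (le_abs_self _)
        have hYy : 1 ≤ Y * y := by
          have := hy.1
          rw [div_le_iff₀ hY0] at this
          linarith
        have hw : wt (p2 h θ) y a = 4 * T ^ 2 / (p2 h θ ^ 2 * y ^ 4) := by
          unfold wt
          rw [← hT, haT]
          field_simp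
          ring
        rw [hw, div_le_iff₀ (by positivity)]
        have hC1 : 16 * B * M ^ 3 * Y ^ 8 ≤ c * C := by
          rw [hC, mul_add, mul_div_cancel₀ _ hc.ne']
          linarith
        calc 4 * T ^ 2 = 4 * T * T * 1 * 1 := by ring
          _ ≤ 4 * T * (2 * B * X) * (M * p2 h θ) ^ 3 * (Y * y) ^ 8 := by
              have h1 : 1 ≤ (M * p2 h θ) ^ 3 := one_le_pow₀ hP.q2
              have h2 : 1 ≤ (Y * y) ^ 8 := one_le_pow₀ hYy
              gcongr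
          _ = (16 * B * M ^ 3 * Y ^ 8) * (X * T * p2 h θ ^ 3 * y ^ 8 / 2) := by ring
          _ ≤ (c * C) * (X * T * p2 h θ ^ 3 * y ^ 8 / 2) := by gcongr
          _ = c * (T * p2 h θ * y ^ 2 / 2) * y ^ 2 * (C * X) * (p2 h θ ^ 2 * y ^ 4) := by ring
          _ = c * a * y ^ 2 * (C * X) * (p2 h θ ^ 2 * y ^ 4) := by rw [← haT]
          _ ≤ |deriv (ka h) θ| * a * y ^ 2 * (C * X) * (p2 h θ ^ 2 * y ^ 4) := by
              have hC0 : 0 ≤ C := by
                rw [hC]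
                positivity
              gcongr
    _ ≤ ∫⁻ θ in {θ | |θ - z| ≤ r}, ENNReal.ofReal (|deriv (ka h) θ| * a * y ^ 2) *
          (ENNReal.ofReal (C * X) * (OZ B' e X).indicator (fun A => F (fZ h z r σ y A)) (a, b, cc h y a b θ)) :=
        lintegral_mono_set fun θ hθ => hθ.1
    _ = ∫⁻ x in cc h y a b '' {θ | |θ - z| ≤ r},
          ENNReal.ofReal (C * X) * (OZ B' e X).indicator (fun A => F (fZ h z r σ y A)) (a, b, x) :=
        (int_cc hc hd hg ha hy0 (fun x => ENNReal.ofReal (C * X) * (OZ B' e X).indicator (fun A => F (fZ h z r σ y A)) (a, b, x))).symm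
    _ ≤ ∫⁻ x, ENNReal.ofReal (C * X) * (OZ B' e X).indicator (fun A => F (fZ h z r σ y A)) (a, b, x) := setLIntegral_le_lintegral _ _

theorem lo2 {c₁ B₀ B c r Y e : ℝ} (hc₁ : 0 < c₁) (hB₀ : 1 ≤ B₀) (hB : 1 ≤ B) (hc : 0 < c) (hr : 0 < r) (hr1 : r ≤ 1)
    (hY : 1 ≤ Y) (he : 0 < e) (heY : e * Y ^ 2 ≤ c * r / 2) : ∃ B' C : ℝ, B ≤ B' ∧ 1 ≤ C ∧
    ∀ h : ℝ × ℝ → ℝ, HG c₁ B₀ h → ∀ z σ : ℝ, Gd c r z σ h → ∀ (X : ℝ) (F : Fr → ENNReal), 0 < X → Measurable F →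
    ENNReal.ofReal X * ∫⁻ y in Icc (1 / Y) Y, ∫⁻ A in OZ B e X, F (fZ h z r σ y A) ≤ ENNReal.ofReal C * ∫⁻ f in UP B' X, F f := by
  obtain ⟨M, hM, hPg⟩ := exists_Pg hc₁ hB₀
  have hM0 : 0 < M := by linarith
  have hB0 : 0 < B := by linarith
  have hY0 : 0 < Y := by linarith
  have hB3 : B ≤ B ^ 3 := le_self_pow₀ hB (by norm_num)
  have hM2 : 1 ≤ M ^ 2 := one_le_pow₀ hM
  have hY5 : 1 ≤ Y ^ 5 := one_le_pow₀ hY
  refine ⟨6 * M ^ 2 * B ^ 3 * Y ^ 5, B * M ^ 4 * B₀ * Y ^ 10 + 1, ?_, ?_, fun h hh z σ hg X F hX hF => ?_⟩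
  · calc B ≤ 1 * 1 * B ^ 3 * 1 := by linarith
      _ ≤ _ := by gcongr; norm_num
  · have : 0 ≤ B * M ^ 4 * B₀ * Y ^ 10 := by positivity
    linarith
  have hd := hh.kd
  have hσ := hg.1
  obtain ⟨B', hB'⟩ : ∃ B', B' = 6 * M ^ 2 * B ^ 3 * Y ^ 5 := ⟨_, rfl⟩
  obtain ⟨C, hC⟩ : ∃ C, C = B * M ^ 4 * B₀ * Y ^ 10 + 1 := ⟨_, rfl⟩
  rw [← hB', ← hC]
  obtain ⟨Ψ, hΨ⟩ : ∃ Ψ, Ψ = (UP B' X).indicator F := ⟨_, rfl⟩
  have hΨm : Measurable Ψ := by
    rw [hΨ]
    exact hF.indicator (UP_meas _ _)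
  have e1 : ∫⁻ f in UP B' X, F f = ∫⁻ θ in Ioc (-π) π, Rt Ψ θ := by
    rw [← int_Rt hΨm, hΨ, lintegral_indicator (UP_meas _ _)]
  rw [e1]
  have e2 : ∫⁻ y in Icc (1 / Y) Y, ∫⁻ θ in {θ | |θ - z| ≤ r}, Ry Ψ θ y ≤ ∫⁻ θ in Ioc (-π) π, Rt Ψ θ := by
    rw [lintegral_lintegral_swap (f := fun y θ => Ry Ψ θ y) ((Ry_meas hΨm).comp measurable_swap).aemeasurable]
    refine le_trans ?_ (Rt_per (z := z) hr1 Ψ)
    refine lintegral_mono fun θ => ?_
    rw [Rt_eq]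
    exact setLIntegral_le_lintegral _ _
  refine le_trans ?_ (mul_le_mul_right e2 _)
  rw [← lintegral_const_mul' _ _ ENNReal.ofReal_ne_top, ← lintegral_const_mul' _ _ ENNReal.ofReal_ne_top]
  refine setLIntegral_mono' measurableSet_Icc fun y hy => ?_
  have hy0 : 0 < y := lt_of_lt_of_le (by positivity) hy.1
  rw [int_y hΨm (p2_meas hh) (be_meas hh) (fun θ => (hPg h hh θ).q0) hy0]
  have hFm : Measurable (fun A : R3 => F (fZ h z r σ y A)) := hF.comp (fZ_meas hh hr hσ y)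
  have hOm : Measurable ((OZ B e X).indicator fun A => F (fZ h z r σ y A)) := hFm.indicator (OZ_meas _ _ _)
  rw [← lintegral_indicator (OZ_meas _ _ _), lint3 hOm, ← lintegral_const_mul' _ _ ENNReal.ofReal_ne_top,
    ← lintegral_const_mul' _ _ ENNReal.ofReal_ne_top, ← lintegral_indicator measurableSet_Ioi]
  refine lintegral_mono fun a => ?_
  simp only
  by_cases ha : 0 < a
  swap
  · have e0 : ∀ b x : ℝ, (OZ B e X).indicator (fun A => F (fZ h z r σ y A)) (a, b, x) = 0 := by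
      intro b x
      rw [indicator_of_notMem]
      intro hm
      have h1 : X ≤ B * a := hm.1
      have h2 : B * a ≤ 0 := mul_nonpos_of_nonneg_of_nonpos hB0.le (not_lt.1 ha)
      linarith
    simp only [e0, lintegral_zero, mul_zero]
    exact zero_le
  rw [indicator_of_mem (show a ∈ Ioi (0 : ℝ) from ha), ← lintegral_const_mul' _ _ ENNReal.ofReal_ne_top,
    ← lintegral_const_mul' _ _ ENNReal.ofReal_ne_top]
  refine lintegral_mono fun b => ?_
  simp only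
  rw [← lintegral_const_mul' _ _ ENNReal.ofReal_ne_top, ← lintegral_const_mul' _ _ ENNReal.ofReal_ne_top]
  obtain ⟨Φ, hΦ⟩ : ∃ Φ : ℝ → ENNReal, Φ = fun x => ENNReal.ofReal X * (OZ B e X).indicator (fun A => F (fZ h z r σ y A)) (a, b, x) :=
    ⟨_, rfl⟩
  have hsupp : ∀ x, x ∉ cc h y a b '' {θ | |θ - z| ≤ r} → Φ x = 0 := by
    intro x hx
    rw [hΦ]
    simp only
    rw [indicator_of_notMem, mul_zero]
    intro hm
    have h5 : |b ^ 2 - x * a| ≤ e * a ^ 2 := hm.2.2.2.2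
    have hYy : 1 ≤ Y * y := by
      have := hy.1
      rw [div_le_iff₀ hY0] at this
      linarith
    have hv : |vA y (a, b, x)| ≤ c * r / 2 := by
      show |(b ^ 2 - x * a) / (a ^ 2 * y ^ 2)| ≤ c * r / 2
      rw [abs_div, abs_of_pos (show 0 < a ^ 2 * y ^ 2 by positivity), div_le_iff₀ (by positivity)]
      calc |b ^ 2 - x * a| ≤ e * a ^ 2 := h5
        _ = e * a ^ 2 * 1 := (mul_one _).symm
        _ ≤ e * a ^ 2 * (Y * y) ^ 2 := by
            have : (1 : ℝ) ≤ (Y * y) ^ 2 := one_le_pow₀ hYy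
            gcongr
        _ = (e * Y ^ 2) * (a ^ 2 * y ^ 2) := by ring
        _ ≤ c * r / 2 * (a ^ 2 * y ^ 2) := by gcongr
    obtain ⟨g1, g2⟩ := ka_th hc hr hd hg hv
    refine hx ⟨_, g1, ?_⟩
    unfold cc
    rw [g2]
    show (b ^ 2 - (b ^ 2 - x * a) / (a ^ 2 * y ^ 2) * a ^ 2 * y ^ 2) / a = x
    field_simp
    ring
  have e3 : ∫⁻ x, Φ x = ∫⁻ x in cc h y a b '' {θ | |θ - z| ≤ r}, Φ x :=
    (setLIntegral_eq_of_support_subset fun x hx => by
      by_contra hcon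
      exact hx (hsupp x hcon)).symm
  have e4 : ∫⁻ x, ENNReal.ofReal X * (OZ B e X).indicator (fun A => F (fZ h z r σ y A)) (a, b, x) = ∫⁻ x, Φ x := by rw [hΦ]
  rw [e4, e3, int_cc hc hd hg ha hy0 Φ]
  refine setLIntegral_mono' (set_meas z r) fun θ hθ => ?_
  rw [hΦ]
  simp only
  by_cases hO : (a, b, cc h y a b θ) ∈ OZ B e X
  swap
  · rw [indicator_of_notMem hO, mul_zero, mul_zero]
    exact zero_le
  rw [indicator_of_mem hO, fZ_cc hc hd hg ha hy0 hθ]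
  have hP := hPg h hh θ
  have hq := hP.q0
  obtain ⟨T, hT⟩ : ∃ T, T = 2 * a / (p2 h θ * y ^ 2) := ⟨_, rfl⟩
  obtain ⟨x, hx⟩ : ∃ x, x = -(b / a) + be h θ * y := ⟨_, rfl⟩
  obtain ⟨-, hT0, k2, hU⟩ := fr_UP (θ := θ) hP hB hX hY hO hy.1 hy.2 hT hx
  rw [← hT, ← hx, hΨ, indicator_of_mem (by rw [hB']; exact hU), ← mul_assoc, ← mul_assoc, ← ENNReal.ofReal_mul (by positivity),
    ← ENNReal.ofReal_mul (by rw [hC]; positivity)]
  refine mul_le_mul_left (ENNReal.ofReal_le_ofReal ?_) _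
  have hTa : T * (p2 h θ * y ^ 2) = 2 * a := by
    rw [hT]
    field_simp
  have haT : a = T * p2 h θ * y ^ 2 / 2 := by linarith
  have hw : wt (p2 h θ) y a = 4 * T ^ 2 / (p2 h θ ^ 2 * y ^ 4) := by
    unfold wt
    rw [← hT, haT]
    field_simp
    ring
  rw [hw, ← mul_div_assoc, le_div_iff₀ (by positivity)]
  have hk := hh.k1 θ
  have hy2 := hy.2
  calc |deriv (ka h) θ| * a * y ^ 2 * X * (p2 h θ ^ 2 * y ^ 4)
      = |deriv (ka h) θ| * (T * p2 h θ * y ^ 2 / 2) * y ^ 2 * X * (p2 h θ ^ 2 * y ^ 4) := by rw [← haT]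
    _ = |deriv (ka h) θ| * X * p2 h θ ^ 3 * y ^ 8 * T / 2 := by ring
    _ ≤ B₀ * (B * M * Y ^ 2 * T) * M ^ 3 * Y ^ 8 * T / 2 := by
        have h1 := hP.q1
        gcongr
    _ = (B * M ^ 4 * B₀ * Y ^ 10) * (T ^ 2 / 2) := by ring
    _ ≤ C * (T ^ 2 / 2) := by
        have : B * M ^ 4 * B₀ * Y ^ 10 ≤ C := by
          rw [hC]
          linarith
        gcongr
    _ ≤ C * (4 * T ^ 2) := by
        have hC0 : 0 ≤ C := by
          rw [hC]
          positivity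
        have hT2 : T ^ 2 / 2 ≤ 4 * T ^ 2 := by
          have : 0 ≤ T ^ 2 := sq_nonneg _
          linarith
        gcongr

end Pool.Agent.Helper92.AG
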