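import Pool.Agent.Helper92.AG.Defs
import Pool.Agent.Helper86.AC.Bd

/-!
# AG-V2: the chart with a fixed height, near a zero of `κ`. Preparations
-/

open MeasureTheory Real Set Filter Topology

set_option autoImplicit false

namespace Pool.Agent.Helper24.AG

open Pool.Agent.Helper60.LT (Fr Tf xf yf df vf fr fr_coord fr_meas int_fr sl Hom Cv)
open Pool.Agent.Helper60.QL (R3 OM UB)
open Pool.Agent.Helper48.QL (df_meas lint3 coord_bd UB_bd)
open Pool.Agent.Helper3.AC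
open Pool.Agent.Helper92.AG
open Pool.Agent.Helper86.AC (sub1 sub2 UP_meas UP_pos UP_UB)

/-! ## the inverse function -/

section th

variable {c r z σ : ℝ} {h : ℝ × ℝ → ℝ}

theorem mem_iff (θ : ℝ) : |θ - z| ≤ r ↔ z - r ≤ θ ∧ θ ≤ z + r := by
  rw [abs_le]
  constructor
  · rintro ⟨h1, h2⟩
    constructor <;> linarith
  · rintro ⟨h1, h2⟩
    constructor <;> linarith

theorem ka_growth (hd : Differentiable ℝ (ka h)) (hg : Gd c r z σ h) {θ θ' : ℝ} (h1 : |θ - z| ≤ r) (h2 : |θ' - z| ≤ r)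
    (h3 : θ ≤ θ') : c * (θ' - θ) ≤ σ * ka h θ' - σ * ka h θ := by
  have hd' : Differentiable ℝ (fun θ => σ * ka h θ) := hd.const_mul σ
  have key := (convex_Icc (z - r) (z + r)).mul_sub_le_image_sub_of_le_deriv (f := fun θ => σ * ka h θ) hd'.continuous.continuousOn
    hd'.differentiableOn (C := c) (fun x hx => by
      have hx' := interior_subset hx
      rw [deriv_const_mul σ (hd x)]
      exact hg.2.2.2 x ((mem_iff x).2 hx'))
  exact key θ ((mem_iff θ).1 h1) θ' ((mem_iff θ').1 h2) h3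

theorem th_ka (hc : 0 < c) (hd : Differentiable ℝ (ka h)) (hg : Gd c r z σ h) {θ : ℝ} (hθ : |θ - z| ≤ r) :
    th h z r σ (ka h θ) = θ := by
  unfold th
  have hθ' := (mem_iff θ).1 hθ
  have e : {θ' | (z - r ≤ θ' ∧ θ' ≤ z + r ∧ σ * ka h θ ≤ σ * ka h θ') ∨ θ' = z + r} = Icc θ (z + r) := by
    ext θ'
    constructor
    · rintro (⟨h1, h2, h3⟩ | h1)
      · refine ⟨?_, h2⟩
        by_contra hcon
        push Not at hcon
        have := ka_growth hd hg ((mem_iff θ').2 ⟨h1, h2⟩) hθ hcon.le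
        have h4 : 0 < c * (θ - θ') := mul_pos hc (by linarith)
        linarith
      · rw [h1]
        exact ⟨hθ'.2, le_refl _⟩
    · rintro ⟨h1, h2⟩
      left
      refine ⟨by linarith [hθ'.1], h2, ?_⟩
      have := ka_growth hd hg hθ ((mem_iff θ').2 ⟨by linarith [hθ'.1], h2⟩) h1
      have h4 : 0 ≤ c * (θ' - θ) := mul_nonneg hc.le (by linarith)
      linarith
  rw [e]
  exact csInf_Icc hθ'.2

theorem ka_th (hc : 0 < c) (hr : 0 < r) (hd : Differentiable ℝ (ka h)) (hg : Gd c r z σ h) {v : ℝ} (hv : |v| ≤ c * r / 2) :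
    |th h z r σ v - z| ≤ r ∧ ka h (th h z r σ v) = v := by
  have hz : |z - z| ≤ r := by rw [sub_self, abs_zero]; exact hr.le
  have hlo : |z - r - z| ≤ r := (mem_iff _).2 ⟨le_refl _, by linarith⟩
  have hhi : |z + r - z| ≤ r := (mem_iff _).2 ⟨by linarith, le_refl _⟩
  have g1 := ka_growth hd hg hz hhi (by linarith)
  have g2 := ka_growth hd hg hlo hz (by linarith)
  have hσ1 : |σ| = 1 := by
    rcases hg.1 with h1 | h1
    · rw [h1, abs_one]
    · rw [h1, abs_neg, abs_one]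
  have k1 : |σ * ka h z| ≤ c * r / 2 := by rw [abs_mul, hσ1, one_mul]; exact hg.2.2.1
  have k2 : |σ * v| ≤ c * r / 2 := by rw [abs_mul, hσ1, one_mul]; exact hv
  rw [abs_le] at k1 k2
  have e1 : c * (z + r - z) = c * r := by ring
  have e2 : c * (z - (z - r)) = c * r := by ring
  have hcont : ContinuousOn (fun θ => σ * ka h θ) (Icc (z - r) (z + r)) := (hd.const_mul σ).continuous.continuousOn
  have hiv := intermediate_value_Icc (show z - r ≤ z + r by linarith) hcont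
  obtain ⟨θ, hθ, hθv⟩ := hiv (show σ * v ∈ Icc (σ * ka h (z - r)) (σ * ka h (z + r)) from ⟨by linarith, by linarith⟩)
  have hσ0 : σ ≠ 0 := by
    intro h0
    rw [h0, abs_zero] at hσ1
    exact zero_ne_one hσ1
  have hθv' : ka h θ = v := mul_left_cancel₀ hσ0 hθv
  have hθ' := (mem_iff θ).2 hθ
  have e3 : th h z r σ v = θ := by
    rw [← hθv']
    exact th_ka hc hd hg hθ'
  rw [e3]
  exact ⟨hθ', hθv'⟩

theorem th_mono (hr : 0 < r) {v v' : ℝ} (hv : σ * v ≤ σ * v') : th h z r σ v ≤ th h z r σ v' := by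
  unfold th
  refine csInf_le_csInf ⟨z - r, ?_⟩ ⟨z + r, Or.inr rfl⟩ ?_
  · rintro θ (⟨h1, -, -⟩ | h1)
    · exact h1
    · rw [h1]
      linarith
  · rintro θ (⟨h1, h2, h3⟩ | h1)
    · exact Or.inl ⟨h1, h2, hv.trans h3⟩
    · exact Or.inr h1

theorem th_meas (hr : 0 < r) (hσ : σ = 1 ∨ σ = -1) : Measurable (th h z r σ) := by
  rcases hσ with h1 | h1
  · refine Monotone.measurable fun v v' hv => th_mono hr ?_
    rw [h1]
    linarith
  · refine Antitone.measurable fun v v' hv => th_mono hr ?_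
    rw [h1]
    linarith

end th

/-! ## measurability -/

theorem p2_meas {c₁ B₀ : ℝ} {h : ℝ × ℝ → ℝ} (hh : HG c₁ B₀ h) : Measurable (p2 h) := by
  refine Continuous.measurable ?_
  have hB : 0 ≤ B₀ := le_trans (abs_nonneg _) (hh.k1 0)
  refine LipschitzWith.continuous (K := B₀.toNNReal) (LipschitzWith.of_dist_le_mul fun x y => ?_)
  rw [Real.dist_eq, Real.dist_eq, Real.coe_toNNReal _ hB]
  exact hh.p2l x y

theorem be_meas {c₁ B₀ : ℝ} {h : ℝ × ℝ → ℝ} (hh : HG c₁ B₀ h) : Measurable (be h) := by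
  refine Continuous.measurable ?_
  have hB : 0 ≤ B₀ := le_trans (abs_nonneg _) (hh.k1 0)
  refine LipschitzWith.continuous (K := B₀.toNNReal) (LipschitzWith.of_dist_le_mul fun x y => ?_)
  rw [Real.dist_eq, Real.dist_eq, Real.coe_toNNReal _ hB]
  exact hh.bel x y

theorem vA_meas : Measurable (fun p : ℝ × R3 => vA p.1 p.2) := by
  unfold vA
  fun_prop

theorem fZ_meas2 {c₁ B₀ r z σ : ℝ} {h : ℝ × ℝ → ℝ} (hh : HG c₁ B₀ h) (hr : 0 < r) (hσ : σ = 1 ∨ σ = -1) :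
    Measurable (fun p : ℝ × R3 => fZ h z r σ p.1 p.2) := by
  have h1 : Measurable (fun p : ℝ × R3 => tA h z r σ p.1 p.2) := (th_meas hr hσ).comp vA_meas
  have h2 : Measurable (fun p : ℝ × R3 => TZ h z r σ p.1 p.2) := by
    unfold TZ
    have h3 : Measurable (fun p : ℝ × R3 => p2 h (tA h z r σ p.1 p.2)) := (p2_meas hh).comp h1
    have h4 : Measurable (fun p : ℝ × R3 => 2 * p.2.1) := by fun_prop
    have h5 : Measurable (fun p : ℝ × R3 => p.1 ^ 2) := by fun_prop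
    exact h4.div (h3.mul h5)
  have h6 : Measurable (fun p : ℝ × R3 => xZ h z r σ p.1 p.2) := by
    unfold xZ
    have h3 : Measurable (fun p : ℝ × R3 => be h (tA h z r σ p.1 p.2)) := (be_meas hh).comp h1
    have h4 : Measurable (fun p : ℝ × R3 => -(p.2.2.1 / p.2.1)) := by fun_prop
    exact h4.add (h3.mul measurable_fst)
  exact fr_meas.comp (h1.prodMk (measurable_fst.prodMk (h2.prodMk h6)))

theorem fZ_meas {c₁ B₀ r z σ : ℝ} {h : ℝ × ℝ → ℝ} (hh : HG c₁ B₀ h) (hr : 0 < r) (hσ : σ = 1 ∨ σ = -1) (y : ℝ) :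
    Measurable (fun A : R3 => fZ h z r σ y A) := by
  have h1 : Measurable (fun A : R3 => ((y, A) : ℝ × R3)) := measurable_const.prodMk measurable_id
  have h2 := (fZ_meas2 (z := z) hh hr hσ).comp h1
  have e : (fun p : ℝ × R3 => fZ h z r σ p.1 p.2) ∘ (fun A : R3 => ((y, A) : ℝ × R3)) = fun A => fZ h z r σ y A := rfl
  rw [e] at h2
  exact h2

theorem OZ_meas (B e X : ℝ) : MeasurableSet (OZ B e X) := by
  have h1 : Measurable (fun A : R3 => B * A.1) := by fun_prop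
  have h2 : Measurable (fun A : R3 => A.1) := by fun_prop
  have h3 : Measurable (fun A : R3 => |A.2.1|) := by fun_prop
  have h4 : Measurable (fun A : R3 => |A.2.2|) := by fun_prop
  have h5 : Measurable (fun A : R3 => |A.2.1 ^ 2 - A.2.2 * A.1|) := by fun_prop
  have h6 : Measurable (fun A : R3 => e * A.1 ^ 2) := by fun_prop
  have g1 := measurableSet_le (measurable_const (a := X)) h1
  have g2 := measurableSet_le h2 (measurable_const (a := B * X))
  have g3 := measurableSet_le h3 (measurable_const (a := B * X))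
  have g4 := measurableSet_le h4 (measurable_const (a := B * X))
  have g5 := measurableSet_le h5 h6
  exact g1.inter (g2.inter (g3.inter (g4.inter g5)))

/-! ## the parameters of a direction -/

/-- bounds for the parameters of a direction -/
structure Pg (M q β κ : ℝ) : Prop where
  one : 1 ≤ M
  q0 : 0 < q
  q1 : q ≤ M
  q2 : 1 ≤ M * q
  b1 : |β| ≤ M
  κ1 : |κ| ≤ M

theorem exists_Pg {c₁ B₀ : ℝ} (hc : 0 < c₁) (hB₀ : 1 ≤ B₀) : ∃ M : ℝ, 1 ≤ M ∧ ∀ h : ℝ × ℝ → ℝ, HG c₁ B₀ h → ∀ θ,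
    Pg M (p2 h θ) (be h θ) (ka h θ) := by
  have hi : 0 < 1 / c₁ := by positivity
  have hb : 0 < B₀ := by linarith
  refine ⟨B₀ + 1 / c₁ + B₀ / c₁ + (B₀ / c₁) ^ 2, ?_, fun h hh θ => ?_⟩
  · have h1 : 0 < B₀ / c₁ := by positivity
    have h2 : 0 ≤ (B₀ / c₁) ^ 2 := by positivity
    linarith
  have h1 : 0 < B₀ / c₁ := by positivity
  have h2 : 0 ≤ (B₀ / c₁) ^ 2 := by positivity
  obtain ⟨M, hM⟩ : ∃ M, M = B₀ + 1 / c₁ + B₀ / c₁ + (B₀ / c₁) ^ 2 := ⟨_, rfl⟩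
  rw [← hM]
  have hcv := hh.hom.cv θ
  have z : |(0 : ℝ)| ≤ 1 := by norm_num
  have g1 : c₁ ≤ p2 h θ := hcv.lo 0 z
  have g2 : |p2 h θ| ≤ B₀ := hcv.d2 0 z
  have g3 : |p3 h θ| ≤ B₀ := hcv.d3 0 z
  have g4 : |p4 h θ| ≤ B₀ := hcv.d4 0 z
  have hq0 : 0 < p2 h θ := by linarith
  have hbe : |be h θ| ≤ B₀ / c₁ := by
    unfold be
    rw [abs_div, abs_of_pos (show 0 < 3 * p2 h θ by positivity), div_le_div_iff₀ (by positivity) hc]
    calc |p3 h θ| * c₁ ≤ B₀ * (p2 h θ) := by gcongr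
      _ ≤ B₀ * (3 * p2 h θ) := by
        have : 0 < B₀ * p2 h θ := by positivity
        linarith
  have inv : ∀ x : ℝ, c₁ ≤ x → 1 ≤ M * x := by
    intro x hx
    calc 1 = 1 / c₁ * c₁ := by field_simp
      _ ≤ M * x := by
        have : 1 / c₁ ≤ M := by linarith
        have hM0 : 0 ≤ M := by linarith
        gcongr
  refine ⟨by linarith, hq0, ?_, inv _ g1, by linarith, ?_⟩
  · have := le_abs_self (p2 h θ)
    linarith
  · have h4 : |p4 h θ / (12 * p2 h θ)| ≤ B₀ / c₁ := by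
      rw [abs_div, abs_of_pos (show 0 < 12 * p2 h θ by positivity), div_le_div_iff₀ (by positivity) hc]
      calc |p4 h θ| * c₁ ≤ B₀ * (p2 h θ) := by gcongr
        _ ≤ B₀ * (12 * p2 h θ) := by
          have : 0 < B₀ * p2 h θ := by positivity
          linarith
    have h5 : be h θ ^ 2 ≤ (B₀ / c₁) ^ 2 := by
      rw [← sq_abs]
      exact pow_le_pow_left₀ (abs_nonneg _) hbe 2
    have h6 : -(p4 h θ / (12 * p2 h θ)) ≤ |p4 h θ / (12 * p2 h θ)| := neg_le_abs _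
    have h7 : p4 h θ / (12 * p2 h θ) ≤ |p4 h θ / (12 * p2 h θ)| := le_abs_self _
    have h8 : 0 ≤ be h θ ^ 2 := sq_nonneg _
    unfold ka
    rw [abs_le]
    constructor <;> linarith

/-! ## the regions -/

/-- the coordinates are in the region -/
theorem OZ_of {T x y a b c X B M q β κ e : ℝ} (hP : Pg M q β κ) (hT : 0 < T) (hX : 0 < X) (hB : 1 ≤ B) (h1 : T ^ 2 ≤ 2 * B ^ 2 * X ^ 2)
    (h2 : T ^ 2 * (x ^ 2 + y ^ 2) ≤ 2 * B ^ 2 * X ^ 2) (h3 : X ^ 2 ≤ B * (T ^ 2 * |y|))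
    (ha : a = T * q * y ^ 2 / 2) (hb : b = a * (-x + β * y)) (hc : c * a = b ^ 2 - κ * a ^ 2 * y ^ 2) (he : |κ| * y ^ 2 ≤ e) :
    (a, b, c) ∈ OZ (65536 * M ^ 3 * B ^ 22) e X := by
  obtain ⟨g1, g2, g3, g4, g5⟩ := coord_bd hT hX hB h1 h2 h3
  obtain ⟨m1, m2, m4, m5, m6, m7⟩ := hP
  have hB0 : 0 < B := by linarith
  have hM0 : 0 < M := by linarith
  have hy2 : y ^ 2 ≤ 16 * B ^ 6 := by
    have : |y| ^ 2 ≤ (4 * B ^ 3) ^ 2 := pow_le_pow_left₀ (abs_nonneg _) g4 2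
    rw [sq_abs] at this
    calc y ^ 2 ≤ _ := this
      _ = _ := by ring
  have hy3 : 1 ≤ 16 * B ^ 6 * y ^ 2 := by
    have : 1 ^ 2 ≤ (4 * B ^ 3 * |y|) ^ 2 := pow_le_pow_left₀ (by norm_num) g5 2
    rw [mul_pow, sq_abs] at this
    calc (1 : ℝ) = 1 ^ 2 := by norm_num
      _ ≤ _ := this
      _ = _ := by ring
  have ha1 : a ≤ 16 * M * B ^ 7 * X := by
    rw [ha]
    calc T * q * y ^ 2 / 2 ≤ 2 * B * X * M * (16 * B ^ 6) / 2 := by gcongr
      _ = 16 * M * B ^ 7 * X := by ring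
  have ha2 : X ≤ 64 * M * B ^ 8 * a := by
    rw [ha]
    calc X ≤ 2 * B ^ 2 * T := g2
      _ = 2 * B ^ 2 * T * 1 * 1 := by ring
      _ ≤ 2 * B ^ 2 * T * (16 * B ^ 6 * y ^ 2) * (M * q) := by gcongr
      _ = 64 * M * B ^ 8 * (T * q * y ^ 2 / 2) := by ring
  have ha0 : 0 < a := by
    by_contra hcon
    push Not at hcon
    have : 64 * M * B ^ 8 * a ≤ 0 := mul_nonpos_of_nonneg_of_nonpos (by positivity) hcon
    linarith
  have pw : ∀ i : ℕ, i ≤ 22 → B ^ i ≤ B ^ 22 := fun i hi => pow_le_pow_right₀ hB hi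
  have pm : ∀ i : ℕ, i ≤ 3 → M ^ i ≤ M ^ 3 := fun i hi => pow_le_pow_right₀ m1 hi
  have hs : |-x + β * y| ≤ 8 * M * B ^ 3 := by
    calc |-x + β * y| ≤ |-x| + |β * y| := abs_add_le _ _
      _ = |x| + |β| * |y| := by rw [abs_neg, abs_mul]
      _ ≤ 4 * B ^ 3 + M * (4 * B ^ 3) := by gcongr
      _ ≤ M * (4 * B ^ 3) + M * (4 * B ^ 3) := by
        have : 0 < 4 * B ^ 3 := by positivity
        have := mul_le_mul_of_nonneg_right m1 this.le
        linarith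
      _ = 8 * M * B ^ 3 := by ring
  have hb1 : |b| ≤ 128 * M ^ 2 * B ^ 10 * X := by
    rw [hb, abs_mul, abs_of_pos ha0]
    calc a * |-x + β * y| ≤ 16 * M * B ^ 7 * X * (8 * M * B ^ 3) := by gcongr
      _ = _ := by ring
  have hc1 : |c| ≤ 1280 * M ^ 3 * B ^ 13 * X := by
    have e : c = a * ((-x + β * y) ^ 2 - κ * y ^ 2) := by
      have e2 : c * a = a * ((-x + β * y) ^ 2 - κ * y ^ 2) * a := by
        rw [hc, hb]
        ring
      exact mul_right_cancel₀ ha0.ne' e2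
    have e3 : |(-x + β * y) ^ 2 - κ * y ^ 2| ≤ 80 * M ^ 2 * B ^ 6 := by
      have f1 : (-x + β * y) ^ 2 ≤ 64 * M ^ 2 * B ^ 6 := by
        rw [← sq_abs]
        calc |-x + β * y| ^ 2 ≤ (8 * M * B ^ 3) ^ 2 := pow_le_pow_left₀ (abs_nonneg _) hs 2
          _ = _ := by ring
      have f2 : |κ * y ^ 2| ≤ M * (16 * B ^ 6) := by
        rw [abs_mul, abs_of_nonneg (sq_nonneg y)]
        gcongr
      have f3 : M * (16 * B ^ 6) ≤ 16 * M ^ 2 * B ^ 6 := by
        calc M * (16 * B ^ 6) = 1 * (16 * M * B ^ 6) := by ring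
          _ ≤ M * (16 * M * B ^ 6) := by gcongr
          _ = _ := by ring
      have f4 : 0 ≤ (-x + β * y) ^ 2 := sq_nonneg _
      rw [abs_le] at f2 ⊢
      constructor <;> linarith
    rw [e, abs_mul, abs_of_pos ha0]
    calc a * |(-x + β * y) ^ 2 - κ * y ^ 2| ≤ 16 * M * B ^ 7 * X * (80 * M ^ 2 * B ^ 6) := by gcongr
      _ = _ := by ring
  refine ⟨?_, ?_, ?_, ?_, ?_⟩
  · show X ≤ 65536 * M ^ 3 * B ^ 22 * a
    calc X ≤ 64 * M ^ 1 * B ^ 8 * a := by rw [pow_one]; exact ha2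
      _ ≤ 65536 * M ^ 3 * B ^ 22 * a := by
        have := pw 8 (by norm_num)
        have := pm 1 (by norm_num)
        gcongr
        norm_num
  · show a ≤ 65536 * M ^ 3 * B ^ 22 * X
    calc a ≤ 16 * M ^ 1 * B ^ 7 * X := by rw [pow_one]; exact ha1
      _ ≤ 65536 * M ^ 3 * B ^ 22 * X := by
        have := pw 7 (by norm_num)
        have := pm 1 (by norm_num)
        gcongr
        norm_num
  · show |b| ≤ 65536 * M ^ 3 * B ^ 22 * X
    calc |b| ≤ 128 * M ^ 2 * B ^ 10 * X := hb1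
      _ ≤ 65536 * M ^ 3 * B ^ 22 * X := by
        have := pw 10 (by norm_num)
        have := pm 2 (by norm_num)
        gcongr
        norm_num
  · show |c| ≤ 65536 * M ^ 3 * B ^ 22 * X
    calc |c| ≤ 1280 * M ^ 3 * B ^ 13 * X := hc1
      _ ≤ 65536 * M ^ 3 * B ^ 22 * X := by
        have := pw 13 (by norm_num)
        gcongr
        norm_num
  · show |b ^ 2 - c * a| ≤ e * a ^ 2
    rw [hc]
    have e1 : b ^ 2 - (b ^ 2 - κ * a ^ 2 * y ^ 2) = κ * y ^ 2 * a ^ 2 := by ring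
    rw [e1, abs_mul, abs_mul, abs_of_nonneg (sq_nonneg y), abs_of_nonneg (sq_nonneg a)]
    gcongr

/-- the frames of the region -/
theorem fr_UP {B X Y M q β κ a b c θ y T x e : ℝ} (hP : Pg M q β κ) (hB : 1 ≤ B) (hX : 0 < X) (hY : 1 ≤ Y) (h : (a, b, c) ∈ OZ B e X)
    (hy1 : 1 / Y ≤ y) (hy2 : y ≤ Y) (hT : T = 2 * a / (q * y ^ 2)) (hx : x = -(b / a) + β * y) :
    0 < a ∧ 0 < T ∧ X ≤ B * M * Y ^ 2 * T ∧ fr θ y T x ∈ UP (6 * M ^ 2 * B ^ 3 * Y ^ 5) X := by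
  obtain ⟨h1, h2, h3, h4, -⟩ := h
  simp only at h1 h2 h3 h4
  obtain ⟨m1, m2, m4, m5, m6, m7⟩ := hP
  have hB0 : 0 < B := by linarith
  have hM0 : 0 < M := by linarith
  have hY0 : 0 < Y := by linarith
  have hy0 : 0 < y := lt_of_lt_of_le (by positivity) hy1
  have hYy : 1 ≤ Y * y := by
    rw [div_le_iff₀ hY0] at hy1
    linarith
  have ha : 0 < a := by
    by_contra hcon
    push Not at hcon
    have : B * a ≤ 0 := mul_nonpos_of_nonneg_of_nonpos hB0.le hcon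
    linarith
  have hT0 : 0 < T := by
    rw [hT]
    positivity
  have hTa : T * (q * y ^ 2) = 2 * a := by
    rw [hT]
    field_simp
  have k1 : T ≤ 2 * M * B * Y ^ 2 * X := by
    calc T = T * 1 * 1 := by ring
      _ ≤ T * (M * q) * (Y * y) ^ 2 := by
        have : (1 : ℝ) ≤ (Y * y) ^ 2 := one_le_pow₀ hYy
        gcongr
      _ = M * Y ^ 2 * (T * (q * y ^ 2)) := by ring
      _ = M * Y ^ 2 * (2 * a) := by rw [hTa]
      _ ≤ M * Y ^ 2 * (2 * (B * X)) := by gcongr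
      _ = _ := by ring
  have k2 : X ≤ B * M * Y ^ 2 * T := by
    have : 2 * X ≤ B * M * Y ^ 2 * T := by
      calc 2 * X ≤ 2 * (B * a) := by linarith
        _ = B * (T * (q * y ^ 2)) := by rw [hTa]; ring
        _ ≤ B * (T * (M * Y ^ 2)) := by gcongr
        _ = _ := by ring
    linarith
  have k3 : |x| ≤ 2 * M * B ^ 2 * Y := by
    have e1 : |b / a| ≤ B ^ 2 := by
      rw [abs_div, abs_of_pos ha, div_le_iff₀ ha]
      calc |b| ≤ B * X := h3
        _ ≤ B * (B * a) := by gcongr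
        _ = B ^ 2 * a := by ring
    rw [hx]
    calc |-(b / a) + β * y| ≤ |-(b / a)| + |β * y| := abs_add_le _ _
      _ = |b / a| + |β| * y := by rw [abs_neg, abs_mul, abs_of_pos hy0]
      _ ≤ B ^ 2 + M * Y := by gcongr
      _ = 1 * B ^ 2 * 1 + M * 1 * Y := by ring
      _ ≤ M * B ^ 2 * Y + M * B ^ 2 * Y := by
        have : (1 : ℝ) ≤ B ^ 2 := one_le_pow₀ hB
        gcongr
      _ = _ := by ring
  have hs := abs_sin_le_one θ
  have hcs := abs_cos_le_one θ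
  have hd : df (fr θ y T x) = T ^ 2 * y := (fr_coord (θ := θ) (y := y) (T := T) (x := x) hT0).2.2.2
  have pw : ∀ i : ℕ, i ≤ 3 → B ^ i ≤ B ^ 3 := fun i hi => pow_le_pow_right₀ hB hi
  have pm : ∀ i : ℕ, i ≤ 2 → M ^ i ≤ M ^ 2 := fun i hi => pow_le_pow_right₀ m1 hi
  have py : ∀ i : ℕ, i ≤ 5 → Y ^ i ≤ Y ^ 5 := fun i hi => pow_le_pow_right₀ hY hi
  have k4 : 2 * M * B * Y ^ 2 * X ≤ 6 * M ^ 2 * B ^ 3 * Y ^ 5 * X := by
    have e1 := pw 1 (by norm_num)
    have e2 := pm 1 (by norm_num)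
    have e3 := py 2 (by norm_num)
    rw [pow_one] at e1 e2
    have : 2 * M * B * Y ^ 2 * X ≤ 6 * M ^ 2 * B ^ 3 * Y ^ 5 * X := by
      gcongr
      norm_num
    exact this
  have k5 : ∀ p s : ℝ, |p| ≤ 1 → |s| ≤ 1 → |T * (x * p + y * s)| ≤ 6 * M ^ 2 * B ^ 3 * Y ^ 5 * X := by
    intro p s hp hs
    rw [abs_mul, abs_of_pos hT0]
    have h6 : |x * p + y * s| ≤ 3 * M * B ^ 2 * Y := by
      calc |x * p + y * s| ≤ |x * p| + |y * s| := abs_add_le _ _
        _ = |x| * |p| + y * |s| := by rw [abs_mul, abs_mul, abs_of_pos hy0]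
        _ ≤ 2 * M * B ^ 2 * Y * 1 + Y * 1 := by gcongr
        _ = 2 * M * B ^ 2 * Y + 1 * 1 * Y := by ring
        _ ≤ 2 * M * B ^ 2 * Y + M * B ^ 2 * Y := by
          have : (1 : ℝ) ≤ B ^ 2 := one_le_pow₀ hB
          gcongr
        _ = _ := by ring
    calc T * |x * p + y * s| ≤ 2 * M * B * Y ^ 2 * X * (3 * M * B ^ 2 * Y) := by gcongr
      _ = 6 * M ^ 2 * B ^ 3 * Y ^ 3 * X := by ring
      _ ≤ 6 * M ^ 2 * B ^ 3 * Y ^ 5 * X := by
        have e3 := py 3 (by norm_num)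
        gcongr
  refine ⟨ha, hT0, k2, ?_, ?_, ?_, ?_, ?_⟩
  · show |T * cos θ| ≤ _
    rw [abs_mul, abs_of_pos hT0]
    calc T * |cos θ| ≤ 2 * M * B * Y ^ 2 * X * 1 := by gcongr
      _ ≤ _ := by linarith
  · show |T * sin θ| ≤ _
    rw [abs_mul, abs_of_pos hT0]
    calc T * |sin θ| ≤ 2 * M * B * Y ^ 2 * X * 1 := by gcongr
      _ ≤ _ := by linarith
  · show |T * (x * cos θ - y * sin θ)| ≤ _
    have := k5 (cos θ) (-sin θ) hcs (by rw [abs_neg]; exact hs)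
    have e : x * cos θ - y * sin θ = x * cos θ + y * -sin θ := by ring
    rw [e]
    exact this
  · show |T * (x * sin θ + y * cos θ)| ≤ _
    exact k5 (sin θ) (cos θ) hs hcs
  · rw [hd]
    calc X ^ 2 ≤ (B * M * Y ^ 2 * T) ^ 2 := pow_le_pow_left₀ hX.le k2 2
      _ = M ^ 2 * B ^ 2 * Y ^ 4 * T ^ 2 * 1 := by ring
      _ ≤ M ^ 2 * B ^ 2 * Y ^ 4 * T ^ 2 * (Y * y) := by gcongr
      _ = 1 * M ^ 2 * B ^ 2 * Y ^ 5 * (T ^ 2 * y) := by ring
      _ ≤ 6 * M ^ 2 * B ^ 3 * Y ^ 5 * (T ^ 2 * y) := by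
        have e1 := pw 2 (by norm_num)
        gcongr
        norm_num

end Pool.Agent.Helper24.AG
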